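import Mathlib

/-!
Extension of slowly oscillating functions from a subgroup `H` of a group `Γ` whose relative metric
is proper.
-/

namespace Pool.Agent.Hhelper4.Bergman

open Set Pointwise

variable {Γ : Type*} [Group Γ]

/-- `Av H S n z`: `z = s₁ k₁ s₂ ⋯ kₙ₋₁ sₙ` with `sᵢ ∈ S`, `kᵢ ∈ H`, and all proper partial
products `s₁ k₁ ⋯ sᵢ` (`i < n`) are outside of `H`. -/
inductive Av (H : Subgroup Γ) (S : Set Γ) : ℕ → Γ → Prop
  | one {s : Γ} : s ∈ S → Av H S 1 s
  | step {n : ℕ} {z k s : Γ} : Av H S n z → z ∉ H → k ∈ H → s ∈ S → Av H S (n + 1) (z * k * s)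

/-- The relative metric of `H` with respect to `S` is proper. -/
def Proper (H : Subgroup Γ) (S : Set Γ) : Prop := ∀ n, {g | g ∈ H ∧ Av H S n g}.Finite

/-- allowed turns -/
def Turn (H : Subgroup Γ) (S : Set Γ) (n : ℕ) : Set Γ :=
  {k | k = 1 ∨ (k ∈ H ∧ Av H S n k⁻¹)}

theorem finite_turn {H : Subgroup Γ} {S : Set Γ} (hP : Proper H S) (n : ℕ) :
    (Turn H S n).Finite := by
  have h1 : ((fun g : Γ => g⁻¹) '' {g | g ∈ H ∧ Av H S n g}).Finite := (hP n).image _
  refine ((Set.finite_singleton (1 : Γ)).union h1).subset ?_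
  rintro k (hk | ⟨hk, hk'⟩)
  · exact Or.inl hk
  · exact Or.inr ⟨k⁻¹, ⟨H.inv_mem hk, hk'⟩, inv_inv k⟩

/-- products of `i` blocks `s k` with `s ∈ S` and `k` an allowed turn -/
def XX (H : Subgroup Γ) (S : Set Γ) (n : ℕ) : ℕ → Set Γ
  | 0 => {1}
  | i + 1 => XX H S n i * S * Turn H S n

theorem finite_XX {H : Subgroup Γ} {S : Set Γ} (hP : Proper H S) (hS : S.Finite) (n i : ℕ) :
    (XX H S n i).Finite := by
  induction i with
  | zero => exact Set.finite_singleton _
  | succ i ih => exact (ih.mul hS).mul (finite_turn hP n)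

/-- all blocks up to length `n` -/
def XXX (H : Subgroup Γ) (S : Set Γ) (n : ℕ) : Set Γ := ⋃ i ∈ Set.Iic n, XX H S n i

theorem finite_XXX {H : Subgroup Γ} {S : Set Γ} (hP : Proper H S) (hS : S.Finite) (n : ℕ) :
    (XXX H S n).Finite :=
  Set.Finite.biUnion (Set.finite_Iic n) fun i _ => finite_XX hP hS n i

/-- arrival point of a (reversed) walk starting at `a` -/
def arr (a : Γ) : List (Γ × Γ) → Γ
  | [] => a
  | p :: _ => p.1 * p.2

/-- one may turn from `y` to `x` -/
def Link (H : Subgroup Γ) (y x : Γ) : Prop := x = y ∨ (y ∉ H ∧ y⁻¹ * x ∈ H)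

/-- valid walks (most recent step first) -/
def Valid (H : Subgroup Γ) (S : Set Γ) (a : Γ) : List (Γ × Γ) → Prop
  | [] => True
  | p :: w => Valid H S a w ∧ Link H (arr a w) p.1 ∧ p.2 ∈ S

theorem Link.mem {H : Subgroup Γ} {y x : Γ} (h : Link H y x) : y⁻¹ * x ∈ H := by
  rcases h with h | h
  · subst h; simp [H.one_mem]
  · exact h.2

theorem Link.eq_of_mem {H : Subgroup Γ} {y x : Γ} (h : Link H y x) (hy : y ∈ H) : x = y := by
  rcases h with h | h
  · exact h
  · exact absurd hy h.1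

theorem valid_of_suffix {H : Subgroup Γ} {S : Set Γ} {a : Γ} {w v : List (Γ × Γ)}
    (hw : Valid H S a w) (hv : v <:+ w) : Valid H S a v := by
  induction w with
  | nil =>
    rw [List.suffix_nil] at hv
    subst hv
    trivial
  | cons p w ih =>
    rw [List.suffix_cons_iff] at hv
    rcases hv with rfl | hv
    · exact hw
    · exact ih hw.1 hv

theorem arr_append_eq (a : Γ) {u : List (Γ × Γ)} (hu : u ≠ []) (v v' : List (Γ × Γ)) :
    arr a (u ++ v) = arr a (u ++ v') := by
  cases u with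
  | nil => exact absurd rfl hu
  | cons p u => rfl

theorem valid_cut {H : Subgroup Γ} {S : Set Γ} {a : Γ} {v v' : List (Γ × Γ)}
    (hv : Valid H S a v) (h1 : arr a v ∉ H) (h2 : (arr a v)⁻¹ * arr a v' ∈ H) :
    ∀ u : List (Γ × Γ), Valid H S a (u ++ v') → Valid H S a (u ++ v)
  | [], _ => hv
  | [p], h => by
    have h3 : Link H (arr a v') p.1 := h.2.1
    refine ⟨hv, Or.inr ⟨h1, ?_⟩, h.2.2⟩
    have h4 := H.mul_mem h2 h3.mem
    simpa [mul_assoc] using h4
  | p :: q :: u, h => by
    refine ⟨valid_cut hv h1 h2 (q :: u) h.1, ?_, h.2.2⟩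
    have h3 : Link H (arr a (q :: u ++ v')) p.1 := h.2.1
    exact h3

/-- a walk that does not visit twice the same coset different from `H` -/
def Simple (H : Subgroup Γ) (a : Γ) (w : List (Γ × Γ)) : Prop :=
  ∀ v v', v' <:+ w → v <:+ v' → v ≠ v' → arr a v ∉ H → (arr a v)⁻¹ * arr a v' ∉ H

theorem av_forward {H : Subgroup Γ} {S : Set Γ} {a : Γ} {w v : List (Γ × Γ)} {p : Γ × Γ}
    (hw : Valid H S a w) (hs : Simple H a w) (hv : arr a v ∉ H)
    (hpv : (arr a v)⁻¹ * p.1 ∈ H) :
    ∀ u : List (Γ × Γ), u ++ p :: v <:+ w →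
      Av H S (u.length + 1) (p.1⁻¹ * arr a (u ++ p :: v)) := by
  intro u
  induction u with
  | nil =>
    intro h
    have h1 := valid_of_suffix hw h
    have h2 : p.1⁻¹ * arr a ([] ++ p :: v) = p.2 := by
      show p.1⁻¹ * (p.1 * p.2) = p.2
      group
    rw [h2]
    exact Av.one h1.2.2
  | cons r u ih =>
    intro h
    have hsuf : u ++ p :: v <:+ w := (List.suffix_cons r (u ++ p :: v)).trans h
    have h0 := ih hsuf
    have h1 := valid_of_suffix hw h
    have hlink : Link H (arr a (u ++ p :: v)) r.1 := h1.2.1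
    have hne : v ≠ u ++ p :: v := by
      intro hcon
      have := congrArg List.length hcon
      simp at this
      omega
    have hsv : v <:+ u ++ p :: v :=
      (List.suffix_cons p v).trans (List.suffix_append u (p :: v))
    have h2 : (arr a v)⁻¹ * arr a (u ++ p :: v) ∉ H := hs v _ hsuf hsv hne hv
    have h3 : p.1⁻¹ * arr a (u ++ p :: v) ∉ H := by
      intro h4
      apply h2
      have h5 := H.mul_mem hpv h4
      simpa [mul_assoc] using h5
    have h4 := Av.step h0 h3 hlink.mem h1.2.2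
    have h5 : p.1⁻¹ * arr a (u ++ p :: v) * ((arr a (u ++ p :: v))⁻¹ * r.1) * r.2 =
        p.1⁻¹ * arr a (r :: u ++ p :: v) := by
      show _ = p.1⁻¹ * (r.1 * r.2)
      group
    rw [h5] at h4
    simpa using h4

theorem av_around {H : Subgroup Γ} {S : Set Γ} {a : Γ} {w v : List (Γ × Γ)} {p : Γ × Γ}
    (ha : a ∈ H) (hw : Valid H S a w) (hs : Simple H a w) (hv : arr a v ∉ H)
    (hpv : (arr a v)⁻¹ * p.1 ∈ H) (hc : arr a w ∈ H) (u : List (Γ × Γ)) (hu : u ++ p :: v = w) :
    ∀ v' : List (Γ × Γ), v' <:+ v → v' ≠ [] →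
      Av H S (u.length + 1 + v'.length) (p.1⁻¹ * arr a v') := by
  have hvw : v <:+ w := by
    rw [← hu]
    exact (List.suffix_cons p v).trans (List.suffix_append u (p :: v))
  have hp : p.1 ∉ H := by
    intro h
    apply hv
    have h1 := H.mul_mem h (H.inv_mem hpv)
    simpa using h1
  have h0 : Av H S (u.length + 1) (p.1⁻¹ * arr a w) := by
    have h1 := av_forward hw hs hv hpv u (by rw [hu])
    rwa [hu] at h1
  intro v'
  induction v' with
  | nil => intro _ h; exact absurd rfl h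
  | cons q v'' ih =>
    intro hsuf _
    have h1 := valid_of_suffix hw (hsuf.trans hvw)
    have hlink : Link H (arr a v'') q.1 := h1.2.1
    by_cases hnil : v'' = []
    · subst hnil
      have hq : q.1 = a := hlink.eq_of_mem ha
      have h2 : p.1⁻¹ * arr a w ∉ H := by
        intro h3
        apply hp
        have h4 := H.mul_mem hc (H.inv_mem h3)
        simpa using h4
      have h3 : (arr a w)⁻¹ * a ∈ H := H.mul_mem (H.inv_mem hc) ha
      have h4 := Av.step h0 h2 h3 h1.2.2
      have h5 : p.1⁻¹ * arr a w * ((arr a w)⁻¹ * a) * q.2 = p.1⁻¹ * arr a [q] := by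
        show _ = p.1⁻¹ * (q.1 * q.2)
        rw [hq]
        group
      rw [h5] at h4
      simpa using h4
    · have hsuf' : v'' <:+ v := (List.suffix_cons q v'').trans hsuf
      have h2 := ih hsuf' hnil
      have hne : v'' ≠ v := by
        intro hcon
        have := hsuf.length_le
        rw [hcon] at this
        simp at this
      have h3 : p.1⁻¹ * arr a v'' ∉ H := by
        intro h4
        have h5 : arr a v'' ∉ H := by
          intro h6
          apply hp
          have h7 := H.mul_mem h6 (H.inv_mem h4)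
          simpa using h7
        apply hs v'' v hvw hsuf' hne h5
        have h6 := H.mul_mem (H.inv_mem h4) (H.inv_mem hpv)
        simpa [mul_assoc] using h6
      have h4 := Av.step h2 h3 hlink.mem h1.2.2
      have h5 : p.1⁻¹ * arr a v'' * ((arr a v'')⁻¹ * q.1) * q.2 = p.1⁻¹ * arr a (q :: v'') := by
        show _ = p.1⁻¹ * (q.1 * q.2)
        group
      rw [h5] at h4
      simpa [add_assoc] using h4

theorem mem_XX_of_simple {H : Subgroup Γ} {S : Set Γ} {a : Γ} {w : List (Γ × Γ)}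
    (ha : a ∈ H) (hw : Valid H S a w) (hs : Simple H a w) (hc : arr a w ∈ H) :
    ∀ (v : List (Γ × Γ)) (p : Γ × Γ), p :: v <:+ w → a⁻¹ * p.1 ∈ XX H S w.length v.length := by
  intro v
  induction v with
  | nil =>
    intro p hp
    have h1 := valid_of_suffix hw hp
    have h2 : p.1 = a := (h1.2.1 : Link H (arr a []) p.1).eq_of_mem ha
    rw [h2]
    simp [XX]
  | cons q v ih =>
    intro p hp
    have h1 := valid_of_suffix hw hp
    have hq : q :: v <:+ w := (List.suffix_cons p (q :: v)).trans hp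
    have h2 := ih q hq
    have h3 := valid_of_suffix hw hq
    have hlink : Link H (q.1 * q.2) p.1 := h1.2.1
    have hturn : (q.1 * q.2)⁻¹ * p.1 ∈ Turn H S w.length := by
      rcases hlink with h | ⟨hy, hk⟩
      · left
        rw [h]
        group
      · right
        refine ⟨hk, ?_⟩
        obtain ⟨u, hu⟩ := hp
        have h4 := av_around (p := p) (v := q :: v) ha hw hs hy hk hc u hu (q :: v)
          (List.suffix_refl _) (by simp)
        have h5 : u.length + 1 + (q :: v).length = w.length := by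
          rw [← hu]
          simp
          omega
        rw [h5] at h4
        have h6 : ((q.1 * q.2)⁻¹ * p.1)⁻¹ = p.1⁻¹ * arr a (q :: v) := by
          show _ = p.1⁻¹ * (q.1 * q.2)
          group
        rw [h6]
        exact h4
    show a⁻¹ * p.1 ∈ XX H S w.length v.length * S * Turn H S w.length
    refine ⟨a⁻¹ * q.1 * q.2, ⟨a⁻¹ * q.1, h2, q.2, h3.2.2, rfl⟩, (q.1 * q.2)⁻¹ * p.1, hturn, ?_⟩
    show a⁻¹ * q.1 * q.2 * ((q.1 * q.2)⁻¹ * p.1) = a⁻¹ * p.1
    group

/-- the set whose supremum is the weight at `x` -/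
def Wset (H : Subgroup Γ) (S : Set Γ) (f : Γ → ℝ) (x : Γ) : Set ℝ :=
  insert 0 {r | ∃ n : ℕ, 1 ≤ n ∧ ∃ a ∈ H, ∃ c ∈ H, a⁻¹ * x ∈ XXX H S n ∧ a⁻¹ * c ∈ XXX H S n ∧
    r = |f a - f c| / n}

/-- the weight -/
noncomputable def W (H : Subgroup Γ) (S : Set Γ) (f : Γ → ℝ) (x : Γ) : ℝ := sSup (Wset H S f x)

section

variable {H : Subgroup Γ} {S : Set Γ} {f : Γ → ℝ}

theorem bddAbove_Wset (hf : ∀ x ∈ H, 0 ≤ f x ∧ f x ≤ 1) (x : Γ) : BddAbove (Wset H S f x) := by
  refine ⟨1, ?_⟩
  rintro r (rfl | ⟨n, hn, a, ha, c, hc, -, -, rfl⟩)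
  · norm_num
  · have h1 := hf a ha
    have h2 := hf c hc
    have h3 : |f a - f c| ≤ 1 := by
      rw [abs_le]
      constructor <;> linarith
    have hn' : (1 : ℝ) ≤ n := by exact_mod_cast hn
    rw [div_le_one (by linarith)]
    linarith

theorem W_nonneg (hf : ∀ x ∈ H, 0 ≤ f x ∧ f x ≤ 1) (x : Γ) : 0 ≤ W H S f x :=
  le_csSup (bddAbove_Wset hf x) (Or.inl rfl)

/-- cost of a walk -/
noncomputable def cost (H : Subgroup Γ) (S : Set Γ) (f : Γ → ℝ) (w : List (Γ × Γ)) : ℝ :=
  (w.map fun p => W H S f p.1).sum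

theorem cost_nonneg (hf : ∀ x ∈ H, 0 ≤ f x ∧ f x ≤ 1) (w : List (Γ × Γ)) :
    0 ≤ cost H S f w := by
  apply List.sum_nonneg
  intro r hr
  rw [List.mem_map] at hr
  obtain ⟨p, -, rfl⟩ := hr
  exact W_nonneg hf _

theorem domination (hf : ∀ x ∈ H, 0 ≤ f x ∧ f x ≤ 1) {a : Γ} (ha : a ∈ H) :
    ∀ (n : ℕ) (w : List (Γ × Γ)), w.length = n → Valid H S a w → arr a w ∈ H →
      |f a - f (arr a w)| ≤ cost H S f w := by
  intro n
  induction n using Nat.strong_induction_on with
  | _ n ih =>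
    intro w hn hw hc
    by_cases hs : Simple H a w
    · rcases Nat.eq_zero_or_pos n with h0 | hpos
      · have : w = [] := List.length_eq_zero_iff.mp (hn.trans h0)
        subst this
        simp [arr, cost]
      · have hmem := mem_XX_of_simple ha hw hs hc
        have hXXX : ∀ (v : List (Γ × Γ)) (p : Γ × Γ), p :: v <:+ w →
            a⁻¹ * p.1 ∈ XXX H S w.length := by
          intro v p hp
          have h1 := hp.length_le
          simp only [List.length_cons] at h1
          refine Set.mem_biUnion (x := v.length) ?_ (hmem v p hp)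
          show v.length ≤ w.length
          omega
        have hcX : a⁻¹ * arr a w ∈ XXX H S w.length := by
          cases w with
          | nil => simp at hn; omega
          | cons p v =>
            have h1 := hmem v p (List.suffix_refl _)
            refine Set.mem_biUnion (x := v.length + 1) ?_ ?_
            · show v.length + 1 ≤ (p :: v).length
              simp
            · show a⁻¹ * (p.1 * p.2) ∈ XX H S (p :: v).length v.length * S *
                Turn H S (p :: v).length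
              refine ⟨a⁻¹ * p.1 * p.2, ⟨a⁻¹ * p.1, h1, p.2, hw.2.2, rfl⟩, 1, Or.inl rfl, ?_⟩
              show a⁻¹ * p.1 * p.2 * 1 = a⁻¹ * (p.1 * p.2)
              group
        have hbound : ∀ r ∈ w.map (fun p => W H S f p.1), |f a - f (arr a w)| / n ≤ r := by
          intro r hr
          rw [List.mem_map] at hr
          obtain ⟨p, hp, rfl⟩ := hr
          obtain ⟨l1, l2, hl⟩ := List.append_of_mem hp
          apply le_csSup (bddAbove_Wset hf _)
          right
          refine ⟨w.length, by omega, a, ha, arr a w, hc, ?_, hcX, by rw [hn]⟩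
          exact hXXX l2 p ⟨l1, hl.symm⟩
        have h1 := List.card_nsmul_le_sum _ _ hbound
        rw [List.length_map, hn, nsmul_eq_mul] at h1
        have hn' : (n : ℝ) ≠ 0 := by positivity
        have h2 : (n : ℝ) * (|f a - f (arr a w)| / n) = |f a - f (arr a w)| := by
          field_simp
        rw [h2] at h1
        exact h1
    · unfold Simple at hs
      push Not at hs
      obtain ⟨v, v', hv'w, hvv', hne, h1, h2⟩ := hs
      obtain ⟨u, hu⟩ := hv'w
      have hune : u ≠ [] := by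
        rintro rfl
        simp only [List.nil_append] at hu
        subst hu
        apply h1
        have h3 := H.mul_mem hc (H.inv_mem h2)
        simpa using h3
      have hvalid_v : Valid H S a v := by
        apply valid_of_suffix hw
        exact hvv'.trans ⟨u, hu⟩
      have hcut := valid_cut hvalid_v h1 h2 u (by rw [hu]; exact hw)
      have harr : arr a (u ++ v) = arr a w := by
        rw [← hu]
        exact arr_append_eq a hune v v'
      have hlen : (u ++ v).length < n := by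
        rw [← hn, ← hu, List.length_append, List.length_append]
        have h3 := hvv'.length_le
        have h4 : v.length ≠ v'.length := fun h => hne (hvv'.eq_of_length h)
        omega
      have h3 := ih _ hlen (u ++ v) rfl hcut (by rw [harr]; exact hc)
      rw [harr] at h3
      refine h3.trans ?_
      obtain ⟨m, hm⟩ := hvv'
      rw [← hu, ← hm]
      simp only [cost, List.map_append, List.sum_append]
      have h4 : 0 ≤ (m.map fun p => W H S f p.1).sum := cost_nonneg hf m
      linarith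

/-- the values over which the extension is an infimum -/
def Cset (H : Subgroup Γ) (S : Set Γ) (f : Γ → ℝ) (z : Γ) : Set ℝ :=
  insert 1 {c | ∃ a ∈ H, ∃ w, Valid H S a w ∧ Link H (arr a w) z ∧ c = f a + cost H S f w}

/-- the extension -/
noncomputable def ext (H : Subgroup Γ) (S : Set Γ) (f : Γ → ℝ) (z : Γ) : ℝ := sInf (Cset H S f z)

theorem Cset_nonneg (hf : ∀ x ∈ H, 0 ≤ f x ∧ f x ≤ 1) (z : Γ) : ∀ c ∈ Cset H S f z, 0 ≤ c := by
  rintro c (rfl | ⟨a, ha, w, -, -, rfl⟩)
  · norm_num
  · have := (hf a ha).1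
    have := cost_nonneg (S := S) hf w
    linarith

theorem bddBelow_Cset (hf : ∀ x ∈ H, 0 ≤ f x ∧ f x ≤ 1) (z : Γ) : BddBelow (Cset H S f z) :=
  ⟨0, fun c hc => Cset_nonneg hf z c hc⟩

theorem ext_nonneg (hf : ∀ x ∈ H, 0 ≤ f x ∧ f x ≤ 1) (z : Γ) : 0 ≤ ext H S f z :=
  le_csInf ⟨1, Set.mem_insert _ _⟩ (Cset_nonneg hf z)

theorem ext_le_one (hf : ∀ x ∈ H, 0 ≤ f x ∧ f x ≤ 1) (z : Γ) : ext H S f z ≤ 1 :=
  csInf_le (bddBelow_Cset hf z) (Or.inl rfl)

theorem ext_eq (hf : ∀ x ∈ H, 0 ≤ f x ∧ f x ≤ 1) {z : Γ} (hz : z ∈ H) : ext H S f z = f z := by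
  apply le_antisymm
  · apply csInf_le (bddBelow_Cset hf z)
    right
    exact ⟨z, hz, [], trivial, Or.inl rfl, by simp [cost]⟩
  · apply le_csInf ⟨1, Set.mem_insert _ _⟩
    rintro c (rfl | ⟨a, ha, w, hw, hl, rfl⟩)
    · exact (hf z hz).2
    · have h1 : arr a w ∈ H := by
        by_contra hcon
        apply hcon
        have h2 := H.mul_mem hz (H.inv_mem hl.mem)
        simpa using h2
      have h2 : z = arr a w := hl.eq_of_mem h1
      have h3 := domination (S := S) hf ha w.length w rfl hw h1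
      rw [← h2] at h3
      rw [abs_le] at h3
      linarith [h3.1]

theorem link_mul {y z k : Γ} (hz : z ∉ H) (hk : k ∈ H) (h : Link H y z) : Link H y (z * k) := by
  right
  constructor
  · intro hy
    apply hz
    rw [h.eq_of_mem hy]
    exact hy
  · have := H.mul_mem h.mem hk
    simpa [mul_assoc] using this

theorem Cset_mul {z k : Γ} (hz : z ∉ H) (hk : k ∈ H) : Cset H S f (z * k) = Cset H S f z := by
  have hzk : z * k ∉ H := by
    intro h
    apply hz
    have := H.mul_mem h (H.inv_mem hk)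
    simpa using this
  ext c
  constructor
  · rintro (rfl | ⟨a, ha, w, hw, hl, rfl⟩)
    · exact Or.inl rfl
    · right
      refine ⟨a, ha, w, hw, ?_, rfl⟩
      have := link_mul hzk (H.inv_mem hk) hl
      simpa using this
  · rintro (rfl | ⟨a, ha, w, hw, hl, rfl⟩)
    · exact Or.inl rfl
    · right
      exact ⟨a, ha, w, hw, link_mul hz hk hl, rfl⟩

theorem ext_mul {z k : Γ} (hz : z ∉ H) (hk : k ∈ H) : ext H S f (z * k) = ext H S f z := by
  unfold ext
  rw [Cset_mul hz hk]

theorem ext_step (hf : ∀ x ∈ H, 0 ≤ f x ∧ f x ≤ 1) (z : Γ) {s : Γ} (hs : s ∈ S) :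
    ext H S f (z * s) ≤ ext H S f z + W H S f z := by
  rw [← sub_le_iff_le_add]
  apply le_csInf ⟨1, Set.mem_insert _ _⟩
  rintro c (rfl | ⟨a, ha, w, hw, hl, rfl⟩)
  · have h1 := ext_le_one (S := S) hf (z * s)
    have h2 := W_nonneg (S := S) hf z
    linarith
  · rw [sub_le_iff_le_add]
    apply csInf_le (bddBelow_Cset hf _)
    right
    refine ⟨a, ha, (z, s) :: w, ⟨hw, hl, hs⟩, Or.inl rfl, ?_⟩
    simp only [cost, List.map_cons, List.sum_cons]
    ring

theorem finite_W (hP : Proper H S) (hS : S.Finite) (hf : ∀ x ∈ H, 0 ≤ f x ∧ f x ≤ 1)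
    (hso : ∀ h ∈ H, ∀ ε > (0 : ℝ), {x | x ∈ H ∧ ε ≤ |f (x * h) - f x|}.Finite)
    (ε : ℝ) (hε : 0 < ε) : {x | ε ≤ W H S f x}.Finite := by
  obtain ⟨N, hN⟩ := exists_nat_gt (2 / ε)
  have hfin : (⋃ n ∈ Set.Iic N, ⋃ d ∈ {d | d ∈ XXX H S n ∧ d ∈ H},
      {a | a ∈ H ∧ ε / 2 ≤ |f (a * d) - f a|} * XXX H S n).Finite := by
    apply Set.Finite.biUnion (Set.finite_Iic N)
    intro n _
    apply Set.Finite.biUnion
    · exact (finite_XXX hP hS n).subset fun d hd => hd.1
    · intro d hd
      exact (hso d hd.2 (ε / 2) (by linarith)).mul (finite_XXX hP hS n)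
  refine hfin.subset ?_
  intro x hx
  have hx' : ε / 2 < sSup (Wset H S f x) := by
    have : ε ≤ sSup (Wset H S f x) := hx
    linarith
  obtain ⟨r, hr, hlt⟩ := exists_lt_of_lt_csSup ⟨0, Set.mem_insert _ _⟩ hx'
  rcases hr with rfl | ⟨n, hn, a, ha, c, hc, hax, hac, rfl⟩
  · linarith
  have hn' : (1 : ℝ) ≤ n := by exact_mod_cast hn
  have hn0 : (0 : ℝ) < n := by linarith
  have habs : |f a - f c| ≤ 1 := by
    have h1 := hf a ha
    have h2 := hf c hc
    rw [abs_le]
    constructor <;> linarith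
  rw [lt_div_iff₀ hn0] at hlt
  have hnN : n ≤ N := by
    have h1 : (n : ℝ) < 2 / ε := by
      rw [lt_div_iff₀ hε]
      nlinarith
    exact_mod_cast (h1.trans hN).le
  refine Set.mem_biUnion (x := n) hnN ?_
  refine Set.mem_biUnion (x := a⁻¹ * c) ⟨hac, H.mul_mem (H.inv_mem ha) hc⟩ ?_
  refine ⟨a, ⟨ha, ?_⟩, a⁻¹ * x, hax, by group⟩
  have h1 : a * (a⁻¹ * c) = c := by group
  rw [h1, abs_sub_comm]
  nlinarith

theorem finite_ext_mul {f' : Γ → ℝ} {g h : Γ}
    (hg : ∀ ε > (0 : ℝ), {x | ε ≤ |f' (x * g) - f' x|}.Finite)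
    (hh : ∀ ε > (0 : ℝ), {x | ε ≤ |f' (x * h) - f' x|}.Finite) :
    ∀ ε > (0 : ℝ), {x | ε ≤ |f' (x * (g * h)) - f' x|}.Finite := by
  intro ε hε
  have h1 := hg (ε / 2) (by linarith)
  have h2 := (hh (ε / 2) (by linarith)).preimage (f := fun x => x * g)
    (fun x _ y _ hxy => mul_right_cancel hxy)
  refine (h1.union h2).subset ?_
  intro x hx
  by_contra hcon
  rw [Set.mem_union, not_or] at hcon
  obtain ⟨h3, h4⟩ := hcon
  have h5 : |f' (x * g) - f' x| < ε / 2 := not_le.mp h3
  have h6 : |f' (x * g * h) - f' (x * g)| < ε / 2 := not_le.mp h4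
  have h7 : ε ≤ |f' (x * (g * h)) - f' x| := hx
  rw [← mul_assoc] at h7
  have h8 : |f' (x * g * h) - f' x| ≤ |f' (x * g * h) - f' (x * g)| + |f' (x * g) - f' x| := by
    have := abs_add_le (f' (x * g * h) - f' (x * g)) (f' (x * g) - f' x)
    simpa using this
  linarith

theorem finite_ext_inv {f' : Γ → ℝ} {g : Γ}
    (hg : ∀ ε > (0 : ℝ), {x | ε ≤ |f' (x * g) - f' x|}.Finite) :
    ∀ ε > (0 : ℝ), {x | ε ≤ |f' (x * g⁻¹) - f' x|}.Finite := by
  intro ε hε
  refine ((hg ε hε).image (fun x => x * g)).subset ?_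
  intro x hx
  refine ⟨x * g⁻¹, ?_, by simp⟩
  have h1 : ε ≤ |f' (x * g⁻¹) - f' x| := hx
  show ε ≤ |f' (x * g⁻¹ * g) - f' (x * g⁻¹)|
  rw [inv_mul_cancel_right, abs_sub_comm]
  exact h1

/-- **Extension theorem.** -/
theorem exists_extension (H : Subgroup Γ) (S : Set Γ) (hS : S.Finite)
    (hSinv : ∀ s ∈ S, s⁻¹ ∈ S) (hgen : Subgroup.closure ((H : Set Γ) ∪ S) = ⊤)
    (hP : Proper H S) (f : Γ → ℝ) (hf : ∀ x ∈ H, 0 ≤ f x ∧ f x ≤ 1)
    (hso : ∀ h ∈ H, ∀ ε > (0 : ℝ), {x | x ∈ H ∧ ε ≤ |f (x * h) - f x|}.Finite) :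
    ∃ f' : Γ → ℝ, (∀ x ∈ H, f' x = f x) ∧ (∀ x, 0 ≤ f' x ∧ f' x ≤ 1) ∧
      (∀ x, x ∉ H → ∀ h ∈ H, f' (x * h) = f' x) ∧
      ∀ g, ∀ ε > (0 : ℝ), {x | ε ≤ |f' (x * g) - f' x|}.Finite := by
  refine ⟨ext H S f, fun x hx => ext_eq hf hx, fun x => ⟨ext_nonneg hf x, ext_le_one hf x⟩,
    fun x hx h hh => ext_mul hx hh, ?_⟩
  intro g
  have hg : g ∈ Subgroup.closure ((H : Set Γ) ∪ S) := by rw [hgen]; trivial
  induction hg using Subgroup.closure_induction with
  | mem g hg =>
    rcases hg with hg | hg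
    · intro ε hε
      refine (hso g hg ε hε).subset ?_
      intro x hx
      have hx' : ε ≤ |ext H S f (x * g) - ext H S f x| := hx
      by_cases hxH : x ∈ H
      · refine ⟨hxH, ?_⟩
        rw [ext_eq hf hxH, ext_eq hf (H.mul_mem hxH hg)] at hx'
        exact hx'
      · rw [ext_mul hxH hg] at hx'
        simp at hx'
        linarith
    · intro ε hε
      have h1 := finite_W hP hS hf hso ε hε
      have h2 := h1.preimage (f := fun x => x * g) (fun x _ y _ hxy => mul_right_cancel hxy)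
      refine (h1.union h2).subset ?_
      intro x hx
      by_contra hcon
      rw [Set.mem_union, not_or] at hcon
      obtain ⟨h3, h4⟩ := hcon
      have h5 : W H S f x < ε := not_le.mp h3
      have h6 : W H S f (x * g) < ε := not_le.mp h4
      have h7 := ext_step (S := S) hf x hg
      have h8 := ext_step (S := S) hf (x * g) (hSinv g hg)
      rw [mul_inv_cancel_right] at h8
      have h9 : ε ≤ |ext H S f (x * g) - ext H S f x| := hx
      have h10 : |ext H S f (x * g) - ext H S f x| < ε := by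
        rw [abs_lt]
        constructor <;> linarith
      linarith
  | one =>
    intro ε hε
    convert Set.finite_empty
    ext x
    simp only [mul_one, sub_self, abs_zero, Set.mem_ofPred_eq, Set.mem_empty_iff_false, iff_false,
      not_le]
    exact hε
  | mul x y _ _ hx hy => exact finite_ext_mul hx hy
  | inv x _ hx => exact finite_ext_inv hx

end

end Pool.Agent.Hhelper4.Bergman
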