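import Pool.Agent.Hhelper4.Bergman.Extend

/-!
Properness of the relative metric is inherited by HNN extensions.
-/

namespace Pool.Agent.Hhelper4.Bergman

open Set Pointwise HNNExtension

section PT

variable {L : Type*} [Group L]

/-- Paths in which the turns made at points of `H` belong to `K`. -/
inductive PT (H : Subgroup L) (S K : Set L) : ℕ → L → Prop
  | base {κ : L} : κ ∈ K → PT H S K 0 κ
  | step {n : ℕ} {z s k : L} : PT H S K n z → s ∈ S → k ∈ H → (z * s ∈ H → k ∈ K) →
      PT H S K (n + 1) (z * s * k)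

/-- loops of length at most `n` at `H` avoiding `H` -/
def Loops (H : Subgroup L) (S : Set L) (n : ℕ) : Set L :=
  ⋃ i ∈ Set.Iic n, {g | g ∈ H ∧ Av H S i g}

theorem finite_Loops {H : Subgroup L} {S : Set L} (hP : Proper H S) (n : ℕ) :
    (Loops H S n).Finite :=
  Set.Finite.biUnion (Set.finite_Iic n) fun i _ => hP i

/-- elements of `H` reached by paths -/
def GG (H : Subgroup L) (S K : Set L) : ℕ → Set L
  | 0 => K
  | n + 1 => GG H S K n ∪ GG H S K n * Loops H S (n + 1) * K

theorem finite_GG {H : Subgroup L} {S K : Set L} (hP : Proper H S) (hK : K.Finite) (n : ℕ) :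
    (GG H S K n).Finite := by
  induction n with
  | zero => exact hK
  | succ n ih => exact ih.union ((ih.mul (finite_Loops hP (n + 1))).mul hK)

theorem GG_subset {H : Subgroup L} {S K : Set L} (hKH : K ⊆ H) (n : ℕ) :
    GG H S K n ⊆ H := by
  induction n with
  | zero => exact hKH
  | succ n ih =>
    rintro x (hx | ⟨y, ⟨a, ha, b, hb, rfl⟩, k, hk, rfl⟩)
    · exact ih hx
    · refine H.mul_mem (H.mul_mem (ih ha) ?_) (hKH hk)
      simp only [Loops, Set.mem_iUnion] at hb
      obtain ⟨i, _, hb⟩ := hb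
      exact hb.1

theorem PT_cases {H : Subgroup L} {S K : Set L} (hKH : K ⊆ H) {n : ℕ} {z : L}
    (h : PT H S K n z) :
    z ∈ GG H S K n ∨ ∃ g ∈ GG H S K n, ∃ y, y ∉ H ∧ ∃ k ∈ H, ∃ i, i ≤ n ∧ Av H S i y ∧
      z = g * y * k := by
  induction h with
  | base hκ => exact Or.inl hκ
  | @step n z s k hz hs hk hK ih =>
    rcases ih with hz | ⟨g, hg, y, hy, k₀, hk₀, i, hi, hav, rfl⟩
    · have hzH := GG_subset (S := S) hKH n hz
      by_cases hsH : s ∈ H
      · left
        right
        have hkK := hK (H.mul_mem hzH hsH)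
        refine ⟨z * s, ⟨z, hz, s, ?_, rfl⟩, k, hkK, rfl⟩
        refine Set.mem_biUnion (x := 1) ?_ ⟨hsH, Av.one hs⟩
        show 1 ≤ n + 1
        omega
      · right
        exact ⟨z, Or.inl hz, s, hsH, k, hk, 1, by omega, Av.one hs, rfl⟩
    · have hgH := GG_subset (S := S) hKH n hg
      have hav' := Av.step hav hy hk₀ hs
      by_cases hy' : y * k₀ * s ∈ H
      · left
        right
        have hkK := hK (by
          have := H.mul_mem hgH hy'
          simpa [mul_assoc] using this)
        refine ⟨g * (y * k₀ * s), ⟨g, hg, y * k₀ * s, ?_, rfl⟩, k, hkK, ?_⟩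
        · refine Set.mem_biUnion (x := i + 1) ?_ ⟨hy', hav'⟩
          show i + 1 ≤ n + 1
          omega
        · show g * (y * k₀ * s) * k = g * y * k₀ * s * k
          group
      · right
        refine ⟨g, Or.inl hg, y * k₀ * s, hy', k, hk, i + 1, by omega, hav', ?_⟩
        group

theorem finite_PT {H : Subgroup L} {S K : Set L} (hP : Proper H S) (hK : K.Finite)
    (hKH : K ⊆ H) (n : ℕ) : {g | g ∈ H ∧ PT H S K n g}.Finite := by
  refine (finite_GG hP hK n).subset ?_
  rintro z ⟨hz, hPT⟩
  rcases PT_cases hKH hPT with h | ⟨g, hg, y, hy, k, hk, i, -, -, rfl⟩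
  · exact h
  · exfalso
    apply hy
    have h1 := H.mul_mem (H.mul_mem (H.inv_mem (GG_subset (S := S) hKH n hg)) hz) (H.inv_mem hk)
    simpa [mul_assoc] using h1

end PT

section Rel

variable {L : Type*} [Group L]

/-- product of a list of pairs -/
def pv (v : List (L × L)) : L := (v.map fun p => p.1 * p.2).prod

@[simp] theorem pv_nil : pv ([] : List (L × L)) = 1 := rfl

@[simp] theorem pv_cons (p : L × L) (v : List (L × L)) : pv (p :: v) = p.1 * p.2 * pv v := by
  simp [pv]

@[simp] theorem pv_append (v w : List (L × L)) : pv (v ++ w) = pv v * pv w := by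
  simp [pv]

/-- `Rel H S n z`: `z = k₀ s₁ k₁ ⋯ sᵢ kᵢ` with `i ≤ n`, `sⱼ ∈ S`, `kⱼ ∈ H`. -/
def Rel (H : Subgroup L) (S : Set L) (n : ℕ) (z : L) : Prop :=
  ∃ k ∈ H, ∃ v : List (L × L), v.length ≤ n ∧ (∀ p ∈ v, p.1 ∈ S ∧ p.2 ∈ H) ∧ z = k * pv v

end Rel

section Words

variable {L : Type*} [Group L] {A B : Subgroup L} (φ : A ≃* B)

/-- value of a letter -/
def ev : L ⊕ ℤˣ → HNNExtension L A B φ
  | Sum.inl s => of s
  | Sum.inr u => t ^ (u : ℤ)

/-- value of a word -/
def val (w : List ((L ⊕ ℤˣ) × L)) : HNNExtension L A B φ :=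
  (w.map fun p => ev φ p.1 * of p.2).prod

@[simp] theorem val_nil : val φ [] = 1 := rfl

@[simp] theorem val_cons (p : (L ⊕ ℤˣ) × L) (w : List ((L ⊕ ℤˣ) × L)) :
    val φ (p :: w) = ev φ p.1 * of p.2 * val φ w := by
  simp [val]

@[simp] theorem val_append (w w' : List ((L ⊕ ℤˣ) × L)) :
    val φ (w ++ w') = val φ w * val φ w' := by
  simp [val]

/-- inclusion of words of `L` -/
def inj (v : List (L × L)) : List ((L ⊕ ℤˣ) × L) := v.map fun p => (Sum.inl p.1, p.2)

@[simp] theorem inj_nil : inj ([] : List (L × L)) = [] := rfl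

@[simp] theorem inj_cons (p : L × L) (v : List (L × L)) :
    inj (p :: v) = (Sum.inl p.1, p.2) :: inj v := rfl

@[simp] theorem length_inj (v : List (L × L)) : (inj v).length = v.length := by
  simp [inj]

@[simp] theorem val_inj (v : List (L × L)) : val φ (inj v) = of (pv v) := by
  induction v with
  | nil => simp
  | cons p v ih => simp [ih, ev]

/-- number of occurrences of the stable letter -/
def tc : List ((L ⊕ ℤˣ) × L) → ℕ
  | [] => 0
  | (Sum.inl _, _) :: w => tc w
  | (Sum.inr _, _) :: w => tc w + 1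

theorem tc_append (w w' : List ((L ⊕ ℤˣ) × L)) : tc (w ++ w') = tc w + tc w' := by
  induction w with
  | nil => simp [tc]
  | cons p w ih =>
    rcases p with ⟨s | u, k⟩
    · simpa [tc] using ih
    · simp [tc, ih]
      omega

@[simp] theorem tc_inj (v : List (L × L)) : tc (inj v) = 0 := by
  induction v with
  | nil => rfl
  | cons p v ih => simpa [tc] using ih

/-- conversion to head and list of syllables -/
def toW : List ((L ⊕ ℤˣ) × L) → L × List (ℤˣ × L)
  | [] => (1, [])
  | (Sum.inl s, k) :: w => (s * k * (toW w).1, (toW w).2)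
  | (Sum.inr u, k) :: w => (1, (u, k * (toW w).1) :: (toW w).2)

theorem val_eq (w : List ((L ⊕ ℤˣ) × L)) :
    val φ w = of (toW w).1 * ((toW w).2.map fun x => t ^ (x.1 : ℤ) * of x.2).prod := by
  induction w with
  | nil => simp [toW]
  | cons p w ih =>
    rcases p with ⟨s | u, k⟩
    · simp [toW, ih, ev, mul_assoc]
    · simp [toW, ih, ev, mul_assoc]

theorem head_split : ∀ (w : List ((L ⊕ ℤˣ) × L)) (u : ℤˣ) (l : L) (ls : List (ℤˣ × L)),
    (toW w).2 = (u, l) :: ls → ∃ v k' w3, w = inj v ++ (Sum.inr u, k') :: w3 ∧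
      (toW w).1 = pv v
  | [], u, l, ls, h => by simp [toW] at h
  | (Sum.inl s, k) :: w, u, l, ls, h => by
    obtain ⟨v, k', w3, hw, hv⟩ := head_split w u l ls h
    refine ⟨(s, k) :: v, k', w3, ?_, ?_⟩
    · rw [hw]; rfl
    · show s * k * (toW w).1 = _
      rw [hv]; simp
  | (Sum.inr u', k) :: w, u, l, ls, h => by
    simp only [toW, List.cons.injEq, Prod.mk.injEq] at h
    obtain ⟨⟨rfl, -⟩, -⟩ := h
    exact ⟨[], k, w, rfl, rfl⟩

theorem nil_split : ∀ (w : List ((L ⊕ ℤˣ) × L)), (toW w).2 = [] → ∃ v, w = inj v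
  | [], _ => ⟨[], rfl⟩
  | (Sum.inl s, k) :: w, h => by
    obtain ⟨v, hv⟩ := nil_split w h
    exact ⟨(s, k) :: v, by rw [hv]; rfl⟩
  | (Sum.inr u', k) :: w, h => by simp [toW] at h

variable (A B) in
/-- a word containing a pinch -/
def HasPinch (w : List ((L ⊕ ℤˣ) × L)) : Prop :=
  ∃ w1 u k v k' w3, w = w1 ++ ((Sum.inr u, k) :: (inj v ++ (Sum.inr (-u), k') :: w3)) ∧
    k * pv v ∈ toSubgroup A B u

variable (A B) in
theorem pinch_or_chain (w : List ((L ⊕ ℤˣ) × L)) :
    HasPinch A B w ∨ List.IsChain (fun a b => a.2 ∈ toSubgroup A B a.1 → a.1 = b.1)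
      (toW w).2 := by
  induction w with
  | nil => right; simp [toW]
  | cons p w ih =>
    rcases ih with ⟨w1, u, k, v, k', w3, hw, hmem⟩ | hchain
    · left
      exact ⟨p :: w1, u, k, v, k', w3, by rw [hw]; rfl, hmem⟩
    · rcases p with ⟨s | u, k⟩
      · right
        exact hchain
      · show _ ∨ List.IsChain _ ((u, k * (toW w).1) :: (toW w).2)
        rcases hls : (toW w).2 with _ | ⟨⟨u', l⟩, ls⟩
        · right
          exact List.isChain_singleton _
        · by_cases hcond : k * (toW w).1 ∈ toSubgroup A B u → u = u'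
          · right
            rw [hls] at hchain
            exact List.isChain_cons_cons.mpr ⟨hcond, hchain⟩
          · left
            push Not at hcond
            obtain ⟨hmem, hne⟩ := hcond
            obtain ⟨v, k', w3, hw, hv⟩ := head_split w u' l ls hls
            have hu' : u' = -u := by
              rcases Int.units_eq_one_or u with rfl | rfl <;>
                rcases Int.units_eq_one_or u' with rfl | rfl <;> simp_all
            refine ⟨[], u, k, v, k', w3, ?_, ?_⟩
            · rw [hw, hu']; rfl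
            · rw [← hv]; exact hmem

theorem pinch_or_inj (κ : L) (w : List ((L ⊕ ℤˣ) × L))
    (h : of κ * val φ w ∈ (of.range : Subgroup (HNNExtension L A B φ))) :
    HasPinch A B w ∨ ∃ v, w = inj v := by
  rcases pinch_or_chain A B w with hp | hc
  · exact Or.inl hp
  · right
    apply nil_split
    let rw' : NormalWord.ReducedWord L A B := ⟨κ * (toW w).1, (toW w).2, hc⟩
    have h1 := ReducedWord.toList_eq_nil_of_mem_of_range φ rw' (by
      have h2 : rw'.prod φ = of κ * val φ w := by
        rw [val_eq]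
        simp [NormalWord.ReducedWord.prod, rw', mul_assoc]
      rw [h2]
      exact h)
    exact h1

theorem t_pow_conj (u : ℤˣ) (a : toSubgroup A B u) :
    (t : HNNExtension L A B φ) ^ (u : ℤ) * of (a : L) * t ^ ((-u : ℤˣ) : ℤ) =
      of ((toSubgroupEquiv φ u a : toSubgroup A B (-u)) : L) := by
  rcases Int.units_eq_one_or u with rfl | rfl
  · have h1 := t_mul_of (φ := φ) a
    simp only [Units.val_one, zpow_one, Units.val_neg, zpow_neg]
    rw [h1]
    simp [toSubgroupEquiv_one]
    rfl
  · have h1 := inv_t_mul_of (φ := φ) a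
    simp only [Units.val_neg, Units.val_one, zpow_neg, zpow_one, neg_neg]
    rw [h1]
    simp [toSubgroupEquiv_neg_one]
    rfl

/-- letters of `L` have to be in `S` -/
def okLetter (S : Set L) : L ⊕ ℤˣ → Prop
  | Sum.inl s => s ∈ S
  | Sum.inr _ => True

/-- admissible words: turns at points of `H` belong to `K` -/
def Good (H : Subgroup L) (S K : Set L) : HNNExtension L A B φ → List ((L ⊕ ℤˣ) × L) → Prop
  | _, [] => True
  | z, p :: w => okLetter S p.1 ∧ p.2 ∈ H ∧ (z * ev φ p.1 ∈ H.map of → p.2 ∈ K) ∧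
      Good H S K (z * ev φ p.1 * of p.2) w

theorem good_append {H : Subgroup L} {S K : Set L} (w w' : List ((L ⊕ ℤˣ) × L)) :
    ∀ z : HNNExtension L A B φ, Good φ H S K z (w ++ w') ↔
      Good φ H S K z w ∧ Good φ H S K (z * val φ w) w' := by
  induction w with
  | nil => intro z; simp [Good]
  | cons p w ih =>
    intro z
    simp only [List.cons_append, Good, ih, val_cons, mul_assoc, and_assoc]

theorem good_mono {H : Subgroup L} {S K K' : Set L} (hK : K ⊆ K') (w : List ((L ⊕ ℤˣ) × L)) :
    ∀ z : HNNExtension L A B φ, Good φ H S K z w → Good φ H S K' z w := by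
  induction w with
  | nil => intro z _; trivial
  | cons p w ih =>
    intro z h
    exact ⟨h.1, h.2.1, fun hz => hK (h.2.2.1 hz), ih _ h.2.2.2⟩

theorem good_inj {H : Subgroup L} {S K : Set L} (v : List (L × L))
    (hv : ∀ p ∈ v, p.1 ∈ S ∧ p.2 ∈ H ∧ p.2 ∈ K) :
    ∀ z : HNNExtension L A B φ, Good φ H S K z (inj v) := by
  induction v with
  | nil => intro z; trivial
  | cons p v ih =>
    intro z
    have h1 := hv p (by simp)
    exact ⟨h1.1, h1.2.1, fun _ => h1.2.2, ih (fun q hq => hv q (by simp [hq])) _⟩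

theorem mem_of_good_inj {H : Subgroup L} {S K : Set L} (v : List (L × L)) :
    ∀ z : HNNExtension L A B φ, Good φ H S K z (inj v) → ∀ p ∈ v, p.1 ∈ S ∧ p.2 ∈ H := by
  induction v with
  | nil => intro z _ p hp; simp at hp
  | cons q v ih =>
    intro z h p hp
    rw [List.mem_cons] at hp
    rcases hp with rfl | hp
    · exact ⟨h.1, h.2.1⟩
    · exact ih _ h.2.2.2 p hp

theorem PT_of_good {H : Subgroup L} {S K : Set L} (v : List (L × L)) :
    ∀ (n : ℕ) (z : L), PT H S K n z → Good φ H S K (of z) (inj v) →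
      PT H S K (n + v.length) (z * pv v) := by
  induction v with
  | nil => intro n z hz _; simpa using hz
  | cons p v ih =>
    intro n z hz h
    have h1 : PT H S K (n + 1) (z * p.1 * p.2) := by
      refine PT.step hz h.1 h.2.1 ?_
      intro hmem
      apply h.2.2.1
      exact ⟨z * p.1, hmem, by simp [ev]⟩
    have h2 := ih (n + 1) (z * p.1 * p.2) h1 (by
      have h3 : Good φ H S K (of z * ev φ (Sum.inl p.1) * of p.2) (inj v) := h.2.2.2
      simpa only [ev, map_mul] using h3)
    have e1 : n + 1 + v.length = n + (p :: v).length := by simp; omega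
    have e2 : z * p.1 * p.2 * pv v = z * pv (p :: v) := by simp [mul_assoc]
    rw [e1, e2] at h2
    exact h2

theorem main_finite (H : Subgroup L) (S : Set L) (h1S : (1 : L) ∈ S) (hP : Proper H S)
    (hgen : ∀ l : L, ∃ n, Rel H S n l)
    (hA : ∀ n, {a | a ∈ A ∧ Rel H S n a}.Finite) (hB : ∀ n, {a | a ∈ B ∧ Rel H S n a}.Finite)
    (m : ℕ) : ∀ (n : ℕ) (K : Set L), K.Finite → K ⊆ H →
      {g : L | g ∈ H ∧ ∃ κ ∈ K, ∃ w : List ((L ⊕ ℤˣ) × L), w.length ≤ n ∧ tc w ≤ m ∧
        Good φ H S K (of κ) w ∧ of κ * val φ w = of g}.Finite := by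
  classical
  induction m with
  | zero =>
    intro n K hK hKH
    have hfin : (⋃ i ∈ Set.Iic n, {g | g ∈ H ∧ PT H S K i g}).Finite :=
      Set.Finite.biUnion (Set.finite_Iic n) fun i _ => finite_PT hP hK hKH i
    refine hfin.subset ?_
    rintro g ⟨hg, κ, hκ, w, hlen, htc, hgood, hval⟩
    have hw : ∃ v, w = inj v := by
      rcases pinch_or_inj φ κ w ⟨g, hval.symm⟩ with ⟨w1, u, k, v, k', w3, hw, -⟩ | h
      · exfalso
        rw [hw, tc_append] at htc
        simp [tc] at htc
      · exact h
    obtain ⟨v, rfl⟩ := hw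
    have h1 := PT_of_good φ v 0 κ (PT.base hκ) hgood
    have h2 : κ * pv v = g := by
      apply of_injective (φ := φ)
      rw [map_mul, ← val_inj φ v]
      exact hval
    rw [h2, zero_add] at h1
    refine Set.mem_biUnion (x := v.length) ?_ ⟨hg, h1⟩
    show v.length ≤ n
    simpa using hlen
  | succ m ih =>
    intro n K hK hKH
    -- expressions of elements of `L`
    choose r hr using hgen
    choose κ₀ hκ₀ q hq using hr
    let Λ : Set L := {l' | ∃ (u : ℤˣ) (a : toSubgroup A B u), Rel H S n a ∧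
      l' = ((toSubgroupEquiv φ u a : toSubgroup A B (-u)) : L)}
    have hΛ : Λ.Finite := by
      have h1 : ((fun a : L => if h : a ∈ A then ((φ ⟨a, h⟩ : B) : L) else 1) ''
          {a | a ∈ A ∧ Rel H S n a}).Finite := (hA n).image _
      have h2 : ((fun a : L => if h : a ∈ B then ((φ.symm ⟨a, h⟩ : A) : L) else 1) ''
          {a | a ∈ B ∧ Rel H S n a}).Finite := (hB n).image _
      refine (h1.union h2).subset ?_
      rintro l' ⟨u, a, ha, rfl⟩
      rcases Int.units_eq_one_or u with rfl | rfl
      · left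
        refine ⟨(a : L), ⟨a.2, ha⟩, ?_⟩
        have h3 : (a : L) ∈ A := a.2
        simp only [h3, dif_pos]
        rfl
      · right
        refine ⟨(a : L), ⟨a.2, ha⟩, ?_⟩
        have h3 : (a : L) ∈ B := a.2
        simp only [h3, dif_pos]
        rfl
    let K' : Set L := K ∪ (κ₀ '' Λ ∪ ⋃ l ∈ Λ, {x | ∃ p ∈ q l, p.2 = x})
    have hK' : K'.Finite := by
      refine hK.union ((hΛ.image _).union ?_)
      refine Set.Finite.biUnion hΛ fun l _ => ?_
      refine ((q l).toFinset.finite_toSet.image Prod.snd).subset ?_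
      rintro x ⟨p, hp, rfl⟩
      exact ⟨p, by simpa using hp, rfl⟩
    have hK'H : K' ⊆ H := by
      rintro x (hx | ⟨l, _, rfl⟩ | hx)
      · exact hKH hx
      · exact hκ₀ l
      · simp only [Set.mem_iUnion] at hx
        obtain ⟨l, _, p, hp, rfl⟩ := hx
        exact ((hq l).2.1 p hp).2
    have hKK' : K ⊆ K' := fun x hx => Or.inl hx
    obtain ⟨C, hC⟩ : ∃ C : ℕ, ∀ l ∈ Λ, (q l).length ≤ C := by
      obtain ⟨C, hC⟩ := (hΛ.image fun l => (q l).length).bddAbove
      exact ⟨C, fun l hl => hC ⟨l, hl, rfl⟩⟩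
    have hfin := (ih n K hK hKH).union (ih (n + C + 2) K' hK' hK'H)
    refine hfin.subset ?_
    rintro g ⟨hg, κ, hκ, w, hlen, htc, hgood, hval⟩
    rcases pinch_or_inj φ κ w ⟨g, hval.symm⟩ with ⟨w1, u, k, v, k', w3, hw, hmem⟩ | ⟨v, hv⟩
    · right
      set a : toSubgroup A B u := ⟨k * pv v, hmem⟩ with ha
      set l' : L := ((toSubgroupEquiv φ u a : toSubgroup A B (-u)) : L) with hl'
      rw [hw] at hgood
      rw [good_append] at hgood
      obtain ⟨hg1, hg2⟩ := hgood
      have hg3 := hg2.2.2.2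
      rw [good_append] at hg3
      obtain ⟨hg4, hg5⟩ := hg3
      have hvS := mem_of_good_inj φ v _ hg4
      have hkH : k ∈ H := hg2.2.1
      have hk'H : k' ∈ H := hg5.2.1
      have hlenv : v.length ≤ n := by
        rw [hw] at hlen
        simp only [List.length_append, List.length_cons, length_inj] at hlen
        omega
      have hΛmem : l' ∈ Λ := ⟨u, a, ⟨k, hkH, v, hlenv, hvS, rfl⟩, rfl⟩
      have hconj := t_pow_conj φ u a
      rw [← hl'] at hconj
      refine ⟨hg, κ, hKK' hκ, w1 ++ (((Sum.inl 1, κ₀ l') :: inj (q l')) ++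
        (Sum.inl 1, k') :: w3), ?_, ?_, ?_, ?_⟩
      · have h1 := hC l' hΛmem
        rw [hw] at hlen
        simp only [List.length_append, List.length_cons, length_inj] at hlen ⊢
        omega
      · rw [hw] at htc
        simp only [tc_append, tc, tc_inj] at htc ⊢
        omega
      · rw [good_append, good_append]
        refine ⟨good_mono φ hKK' _ _ hg1, ⟨h1S, hκ₀ l', fun _ => ?_, ?_⟩, h1S, hk'H, ?_, ?_⟩
        · exact Or.inr (Or.inl ⟨l', hΛmem, rfl⟩)
        · apply good_inj
          intro p hp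
          refine ⟨((hq l').2.1 p hp).1, ((hq l').2.1 p hp).2, Or.inr (Or.inr ?_)⟩
          exact Set.mem_biUnion hΛmem ⟨p, hp, rfl⟩
        · intro hz
          apply hKK'
          apply hg5.2.2.1
          have e1 : of κ * val φ w1 * val φ ((Sum.inl 1, κ₀ l') :: inj (q l')) * ev φ (Sum.inl 1) =
              of κ * val φ w1 * ev φ (Sum.inr u) * of k * val φ (inj v) * ev φ (Sum.inr (-u)) := by
            have e2 : (of l' : HNNExtension L A B φ) = of (κ₀ l') * of (pv (q l')) := by
              rw [← map_mul, ← (hq l').2.2]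
            have e3 : (of (a : L) : HNNExtension L A B φ) = of k * of (pv v) := by
              rw [← map_mul]
            simp only [val_cons, val_inj, ev, map_one, one_mul, mul_one]
            rw [← e2, ← hconj, e3]
            simp only [mul_assoc]
          rw [e1] at hz
          exact hz
        · have e1 : of κ * val φ w1 * val φ ((Sum.inl 1, κ₀ l') :: inj (q l')) * ev φ (Sum.inl 1) =
              of κ * val φ w1 * ev φ (Sum.inr u) * of k * val φ (inj v) * ev φ (Sum.inr (-u)) := by
            have e2 : (of l' : HNNExtension L A B φ) = of (κ₀ l') * of (pv (q l')) := by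
              rw [← map_mul, ← (hq l').2.2]
            have e3 : (of (a : L) : HNNExtension L A B φ) = of k * of (pv v) := by
              rw [← map_mul]
            simp only [val_cons, val_inj, ev, map_one, one_mul, mul_one]
            rw [← e2, ← hconj, e3]
            simp only [mul_assoc]
          show Good φ H S K' (of κ * val φ w1 * val φ ((Sum.inl 1, κ₀ l') :: inj (q l')) *
            ev φ (Sum.inl 1) * of k') w3
          rw [e1]
          exact good_mono φ hKK' _ _ hg5.2.2.2
      · rw [← hval, hw]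
        have e2 : (of l' : HNNExtension L A B φ) = of (κ₀ l') * of (pv (q l')) := by
          rw [← map_mul, ← (hq l').2.2]
        have e3 : (of (a : L) : HNNExtension L A B φ) = of k * of (pv v) := by
          rw [← map_mul]
        simp only [val_append, val_cons, val_inj, ev, map_one, one_mul]
        rw [← e2, ← hconj, e3]
        simp only [mul_assoc]
    · left
      refine ⟨hg, κ, hκ, w, hlen, ?_, hgood, hval⟩
      rw [hv]
      simp

end Words

section Proper

variable {L : Type*} [Group L] {A B : Subgroup L} (φ : A ≃* B)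

/-- the step set of the HNN extension -/
def stepSet (S : Set L) : Set (HNNExtension L A B φ) := of '' S ∪ {t, t⁻¹}

theorem exists_word {H : Subgroup L} {S : Set L} {n : ℕ} {z : HNNExtension L A B φ}
    (h : Av (H.map of) (stepSet φ S) n z) :
    ∃ (w : List ((L ⊕ ℤˣ) × L)) (s : L ⊕ ℤˣ), w.length + 1 = n ∧
      Good φ H S {1} 1 w ∧ okLetter S s ∧ z = val φ w * ev φ s := by
  have key : ∀ s ∈ stepSet φ S, ∃ s' : L ⊕ ℤˣ, okLetter S s' ∧ s = ev φ s' := by
    rintro s (⟨s', hs', rfl⟩ | rfl | rfl)
    · exact ⟨Sum.inl s', hs', rfl⟩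
    · exact ⟨Sum.inr 1, trivial, by simp [ev]⟩
    · exact ⟨Sum.inr (-1), trivial, by simp [ev]⟩
  induction h with
  | one hs =>
    obtain ⟨s', h1, h2⟩ := key _ hs
    exact ⟨[], s', rfl, trivial, h1, by simp [h2]⟩
  | @step n z k s _ hzH hk hs ih =>
    obtain ⟨w, s₀, hlen, hgood, hok, hz⟩ := ih
    obtain ⟨k', hk', rfl⟩ := hk
    obtain ⟨s', h1, h2⟩ := key _ hs
    refine ⟨w ++ [(s₀, k')], s', by simp; omega, ?_, h1, ?_⟩
    · rw [good_append]
      refine ⟨hgood, hok, hk', ?_, trivial⟩
      intro hcon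
      exfalso
      apply hzH
      rw [hz]
      simpa using hcon
    · rw [h2, hz]
      simp [mul_assoc]

theorem proper_hnn (H : Subgroup L) (S : Set L) (h1S : (1 : L) ∈ S) (hP : Proper H S)
    (hgen : ∀ l : L, ∃ n, Rel H S n l)
    (hA : ∀ n, {a | a ∈ A ∧ Rel H S n a}.Finite) (hB : ∀ n, {a | a ∈ B ∧ Rel H S n a}.Finite) :
    Proper (H.map (of : L →* HNNExtension L A B φ)) (stepSet φ S) := by
  intro n
  have hfin := main_finite φ H S h1S hP hgen hA hB n n {1} (Set.finite_singleton _)
    (by simpa using H.one_mem)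
  refine (hfin.image of).subset ?_
  rintro z ⟨⟨g, hg, rfl⟩, hav⟩
  obtain ⟨w, s, hlen, hgood, hok, hz⟩ := exists_word φ hav
  refine ⟨g, ⟨hg, 1, rfl, w ++ [(s, 1)], by simp; omega, ?_, ?_, ?_⟩, rfl⟩
  · have h1 : ∀ w : List ((L ⊕ ℤˣ) × L), tc w ≤ w.length := by
      intro w
      induction w with
      | nil => simp [tc]
      | cons p w ih =>
        rcases p with ⟨s | u, k⟩
        · simp only [tc, List.length_cons]; omega
        · simp only [tc, List.length_cons]; omega
    have h2 := h1 (w ++ [(s, 1)])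
    simp only [List.length_append, List.length_cons, List.length_nil] at h2
    omega
  · rw [good_append, map_one]
    exact ⟨hgood, hok, H.one_mem, fun _ => rfl, trivial⟩
  · simp [hz]

end Proper

end Pool.Agent.Hhelper4.Bergman
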