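import Pool.Agent.Hhelper4.Bergman.HNN

/-!
One step of the construction: an overgroup in which a given sequence is short, with extension of
slowly oscillating functions.
-/

universe u

namespace Pool.Agent.Hhelper4.Bergman

open Set Pointwise HNNExtension Multiplicative

section Gen

variable {L : Type*} [Group L]

theorem Rel.mul {H : Subgroup L} {S : Set L} (h1S : (1 : L) ∈ S) {z w : L}
    (hz : ∃ n, Rel H S n z) (hw : ∃ n, Rel H S n w) : ∃ n, Rel H S n (z * w) := by
  obtain ⟨n, k, hk, v, hv, hv', rfl⟩ := hz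
  obtain ⟨m, k', hk', v', hw, hw', rfl⟩ := hw
  refine ⟨(v ++ (1, k') :: v').length, k, hk, v ++ (1, k') :: v', le_rfl, ?_, ?_⟩
  · intro p hp
    simp only [List.mem_append, List.mem_cons] at hp
    rcases hp with hp | rfl | hp
    · exact hv' p hp
    · exact ⟨h1S, hk'⟩
    · exact hw' p hp
  · simp [mul_assoc]

theorem rel_of_mem {H : Subgroup L} {S : Set L} {z : L} (hz : z ∈ H) : ∃ n, Rel H S n z :=
  ⟨0, z, hz, [], by simp, by simp, by simp⟩

theorem rel_of_mem_S {H : Subgroup L} {S : Set L} {z : L} (hz : z ∈ S) : ∃ n, Rel H S n z :=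
  ⟨1, 1, H.one_mem, [(z, 1)], by simp, by
    intro p hp
    rw [List.mem_singleton] at hp
    subst hp
    exact ⟨hz, H.one_mem⟩, by simp⟩

theorem Rel.inv {H : Subgroup L} {S : Set L} (h1S : (1 : L) ∈ S) (hS : ∀ s ∈ S, s⁻¹ ∈ S)
    {z : L} (hz : ∃ n, Rel H S n z) : ∃ n, Rel H S n z⁻¹ := by
  obtain ⟨n, k, hk, v, -, hv', rfl⟩ := hz
  rw [mul_inv_rev]
  refine Rel.mul h1S ?_ (rel_of_mem (H.inv_mem hk))
  induction v with
  | nil => simpa using rel_of_mem H.one_mem
  | cons p v ih =>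
    rw [pv_cons, mul_inv_rev, mul_inv_rev]
    have h1 := hv' p (by simp)
    exact Rel.mul h1S (ih fun q hq => hv' q (by simp [hq]))
      (Rel.mul h1S (rel_of_mem (H.inv_mem h1.2)) (rel_of_mem_S (hS _ h1.1)))

theorem closure_eq_top {H : Subgroup L} {S : Set L} (hgen : ∀ l : L, ∃ n, Rel H S n l) :
    Subgroup.closure ((H : Set L) ∪ S) = ⊤ := by
  rw [eq_top_iff]
  intro l _
  obtain ⟨n, k, hk, v, -, hv', rfl⟩ := hgen l
  refine Subgroup.mul_mem _ (Subgroup.subset_closure (Or.inl hk)) ?_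
  rename_i hmem
  clear hgen hmem
  induction v with
  | nil => simp
  | cons p v ih =>
    rw [pv_cons]
    have h1 := hv' p (by simp)
    exact Subgroup.mul_mem _ (Subgroup.mul_mem _ (Subgroup.subset_closure (Or.inr h1.1))
      (Subgroup.subset_closure (Or.inl h1.2))) (ih fun q hq => hv' q (by simp [hq]))

/-- products of at most `n` elements of `T` -/
def Ball {M : Type*} [Group M] (T : Set M) : ℕ → Set M
  | 0 => {1}
  | n + 1 => Ball T n ∪ T * Ball T n

theorem finite_Ball {M : Type*} [Group M] {T : Set M} (hT : T.Finite) (n : ℕ) :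
    (Ball T n).Finite := by
  induction n with
  | zero => exact Set.finite_singleton _
  | succ n ih => exact ih.union (hT.mul ih)

theorem mem_Ball_of_rel {M : Type*} [Group M] {H : Subgroup L} {S : Set L} (ρ : L →* M)
    (hρ : ∀ h ∈ H, ρ h = 1) {n : ℕ} {z : L} (hz : Rel H S n z) : ρ z ∈ Ball (ρ '' S) n := by
  obtain ⟨k, hk, v, hv, hv', rfl⟩ := hz
  rw [map_mul, hρ k hk, one_mul]
  clear hk
  induction v generalizing n with
  | nil =>
    simp only [pv_nil, map_one]
    clear hv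
    induction n with
    | zero => rfl
    | succ n ih => exact Or.inl ih
  | cons p v ih =>
    cases n with
    | zero => simp at hv
    | succ n =>
      right
      rw [pv_cons, map_mul, map_mul]
      have h1 := hv' p (by simp)
      rw [hρ p.2 h1.2, mul_one]
      simp only [List.length_cons, add_le_add_iff_right] at hv
      exact ⟨ρ p.1, ⟨p.1, h1.1, rfl⟩, ρ (pv v), ih hv (fun q hq => hv' q (by simp [hq])), rfl⟩

theorem finite_rel {M : Type*} [Group M] {H : Subgroup L} {S : Set L} (hS : S.Finite)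
    (ρ : L →* M) (hρ : ∀ h ∈ H, ρ h = 1) {A : Subgroup L} (hA : Set.InjOn ρ A) (n : ℕ) :
    {a | a ∈ A ∧ Rel H S n a}.Finite := by
  apply Set.Finite.of_finite_image (f := ρ)
  · refine (finite_Ball (hS.image ρ) n).subset ?_
    rintro _ ⟨a, ⟨_, ha⟩, rfl⟩
    exact mem_Ball_of_rel ρ hρ ha
  · exact hA.mono fun a ha => ha.1

theorem finite_bot {P : L → Prop} : {a | a ∈ (⊥ : Subgroup L) ∧ P a}.Finite := by
  refine (Set.finite_singleton (1 : L)).subset ?_
  rintro a ⟨ha, -⟩
  exact Subgroup.mem_bot.mp ha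

end Gen

section HNNgen

variable {L : Type*} [Group L] {A B : Subgroup L} (φ : A ≃* B)

theorem one_mem_stepSet {S : Set L} (h1S : (1 : L) ∈ S) : 1 ∈ stepSet φ S :=
  Or.inl ⟨1, h1S, map_one _⟩

theorem finite_stepSet {S : Set L} (hS : S.Finite) : (stepSet φ S).Finite :=
  (hS.image _).union (Set.toFinite _)

theorem inv_mem_stepSet {S : Set L} (hS : ∀ s ∈ S, s⁻¹ ∈ S) :
    ∀ s ∈ stepSet φ S, s⁻¹ ∈ stepSet φ S := by
  rintro s (⟨s', hs', rfl⟩ | rfl | rfl)
  · exact Or.inl ⟨s'⁻¹, hS _ hs', map_inv _ _⟩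
  · exact Or.inr (Or.inr rfl)
  · exact Or.inr (Or.inl (inv_inv _))

theorem gen_hnn {H : Subgroup L} {S : Set L} (h1S : (1 : L) ∈ S) (hS : ∀ s ∈ S, s⁻¹ ∈ S)
    (hgen : ∀ l : L, ∃ n, Rel H S n l) (z : HNNExtension L A B φ) :
    ∃ n, Rel (H.map of) (stepSet φ S) n z := by
  induction z using HNNExtension.induction_on with
  | of l =>
    obtain ⟨n, k, hk, v, hv, hv', rfl⟩ := hgen l
    refine ⟨n, of k, ⟨k, hk, rfl⟩, v.map fun p => (of p.1, of p.2), by simpa using hv, ?_, ?_⟩
    · intro p hp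
      rw [List.mem_map] at hp
      obtain ⟨q, hq, rfl⟩ := hp
      exact ⟨Or.inl ⟨q.1, (hv' q hq).1, rfl⟩, ⟨q.2, (hv' q hq).2, rfl⟩⟩
    · rw [map_mul]
      congr 1
      clear hv hv'
      induction v with
      | nil => simp
      | cons p v ih => simp [ih]
  | t => exact rel_of_mem_S (Or.inr (Or.inl rfl))
  | mul x y hx hy => exact Rel.mul (one_mem_stepSet φ h1S) hx hy
  | inv x hx => exact Rel.inv (one_mem_stepSet φ h1S) (inv_mem_stepSet φ hS) hx

theorem mk_hnn_le (L : Type u) [Group L] {A B : Subgroup L} (φ : A ≃* B) :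
    Cardinal.mk (HNNExtension L A B φ) ≤ max (Cardinal.mk L) Cardinal.aleph0 := by
  have hsurj : Function.Surjective (fun w : L × List ((L ⊕ ℤˣ) × L) =>
      (of w.1 * val φ w.2 : HNNExtension L A B φ)) := by
    intro z
    induction z using HNNExtension.induction_on with
    | of l => exact ⟨(l, []), by simp⟩
    | t => exact ⟨(1, [(Sum.inr 1, 1)]), by simp [ev]⟩
    | mul x y hx hy =>
      obtain ⟨⟨k, w⟩, rfl⟩ := hx
      obtain ⟨⟨k', w'⟩, rfl⟩ := hy
      refine ⟨(k, w ++ (Sum.inl 1, k') :: w'), ?_⟩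
      simp [ev, mul_assoc]
    | inv x hx =>
      obtain ⟨⟨k, w⟩, rfl⟩ := hx
      have key : ∀ w : List ((L ⊕ ℤˣ) × L), ∃ k' : L, ∃ w', (val φ w)⁻¹ = of k' * val φ w' := by
        intro w
        induction w with
        | nil => exact ⟨1, [], by simp⟩
        | cons p w ih =>
          obtain ⟨k', w', h'⟩ := ih
          rcases p with ⟨s | u, k⟩
          · refine ⟨k', w' ++ [(Sum.inl k⁻¹, s⁻¹)], ?_⟩
            simp only [val_cons, mul_inv_rev, h', val_append, ev, val_nil, map_inv, mul_one,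
              mul_assoc]
          · refine ⟨k', w' ++ [(Sum.inl k⁻¹, 1), (Sum.inr (-u), 1)], ?_⟩
            have h1 : ((t : HNNExtension L A B φ) ^ (u : ℤ))⁻¹ = t ^ ((-u : ℤˣ) : ℤ) := by
              rw [Units.val_neg, zpow_neg]
            simp only [val_cons, mul_inv_rev, h', val_append, ev, val_nil, map_inv, map_one,
              mul_one, mul_assoc, h1]
      obtain ⟨k', w', h'⟩ := key w
      refine ⟨(k', w' ++ [(Sum.inl k⁻¹, 1)]), ?_⟩
      simp only [mul_inv_rev, h', val_append, val_cons, ev, val_nil, map_inv, map_one, mul_one,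
        mul_assoc]
  refine (Cardinal.mk_le_of_surjective hsurj).trans ?_
  rw [Cardinal.mk_prod, Cardinal.lift_id, Cardinal.lift_id]
  have h0 : Cardinal.aleph0 ≤ max (Cardinal.mk L) Cardinal.aleph0 := le_max_right _ _
  have h1 : Cardinal.mk ((L ⊕ ℤˣ) × L) ≤ max (Cardinal.mk L) Cardinal.aleph0 := by
    rw [Cardinal.mk_prod, Cardinal.lift_id, Cardinal.lift_id, Cardinal.mk_sum]
    refine Cardinal.mul_le_of_le h0 (Cardinal.add_le_of_le h0 ?_ ?_) (le_max_left _ _)
    · simp
    · refine le_trans ?_ h0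
      rw [Cardinal.lift_le_aleph0]
      exact Cardinal.mk_le_aleph0
  refine Cardinal.mul_le_of_le h0 (le_max_left _ _) ?_
  refine (Cardinal.mk_list_le_max _).trans ?_
  exact max_le h0 h1

end HNNgen

section Model

/-- the shift automorphism of the free group on `ℤ` -/
def shift : MulAut (FreeGroup ℤ) := FreeGroup.freeGroupCongr (Equiv.addRight 1)

/-- the shift action -/
def shiftAct : Multiplicative ℤ →* MulAut (FreeGroup ℤ) := zpowersHom _ shift

/-- the model group -/
abbrev MM := SemidirectProduct (FreeGroup ℤ) (Multiplicative ℤ) shiftAct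

/-- first generator -/
def mx : MM := SemidirectProduct.inr (ofAdd 1)

/-- second generator -/
def mu : MM := SemidirectProduct.inl (FreeGroup.of 0)

theorem shift_of (k : ℤ) : shift (FreeGroup.of k) = FreeGroup.of (k + 1) := by
  simp [shift]

theorem shift_pow_of (n : ℕ) : (shift ^ n) (FreeGroup.of 0) = FreeGroup.of (n : ℤ) := by
  induction n with
  | zero => simp
  | succ n ih =>
    rw [pow_succ', MulAut.mul_apply, ih, shift_of]
    push_cast
    rfl

theorem conj_mu (n : ℕ) :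
    mx ^ n * mu * (mx ^ n)⁻¹ = SemidirectProduct.inl (FreeGroup.of (n : ℤ)) := by
  have h1 : mx ^ n = SemidirectProduct.inr (ofAdd (n : ℤ)) := by
    unfold mx
    rw [← map_pow]
    congr 1
    rw [← ofAdd_nsmul]
    simp
  rw [h1, mu, ← map_inv, ← SemidirectProduct.inl_aut]
  congr 1
  rw [← shift_pow_of]
  simp [shiftAct]

end Model

section Step

/-- the word expressing the `k`-th element of the sequence -/
def wd {Γ : Type*} [Group Γ] (x u t : Γ) (k : ℕ) : Γ :=
  t * (x ^ k * u * (x ^ k)⁻¹) * t⁻¹ * (u ^ k * x * (u ^ k)⁻¹)⁻¹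

theorem map_wd {Γ Γ' : Type*} [Group Γ] [Group Γ'] (F : Γ →* Γ') (x u t : Γ) (k : ℕ) :
    F (wd x u t k) = wd (F x) (F u) (F t) k := by
  simp [wd]

variable (G : Type u) [Group G]

/-- `G * ⟨x⟩` -/
abbrev L1 := HNNExtension G ⊥ ⊥ (MulEquiv.refl (⊥ : Subgroup G))

/-- `G * ⟨x⟩ * ⟨u⟩` -/
abbrev L2 := HNNExtension (L1 G) ⊥ ⊥ (MulEquiv.refl (⊥ : Subgroup (L1 G)))

/-- embedding -/
def i2 : G →* L2 G := (of : L1 G →* L2 G).comp of

/-- the letter `x` -/
def xx : L2 G := of (t : L1 G)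

/-- the letter `u` -/
def uu : L2 G := t

/-- retraction killing `G` -/
def rho (X U : MM) : L2 G →* MM :=
  lift (lift (1 : G →* MM) X (by simp)) U (by
    rintro ⟨a, ha⟩
    rw [Subgroup.mem_bot] at ha
    subst ha
    simp)

@[simp] theorem rho_i2 (X U : MM) (g : G) : rho G X U (i2 G g) = 1 := by
  simp [rho, i2]

@[simp] theorem rho_xx (X U : MM) : rho G X U (xx G) = X := by
  simp [rho, xx]

@[simp] theorem rho_uu (X U : MM) : rho G X U (uu G) = U := by
  simp [rho, uu]

/-- first free subgroup -/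
def alpha : FreeGroup ℕ →* L2 G := FreeGroup.lift fun n => xx G ^ n * uu G * (xx G ^ n)⁻¹

variable {G}

/-- second free subgroup -/
def beta (e : ℕ → G) : FreeGroup ℕ →* L2 G :=
  FreeGroup.lift fun n => i2 G (e n) * (uu G ^ n * xx G * (uu G ^ n)⁻¹)

theorem model_injective : Function.Injective
    ((SemidirectProduct.inl : FreeGroup ℤ →* MM).comp (FreeGroup.map (fun n : ℕ => (n : ℤ)))) := by
  rw [MonoidHom.coe_comp]
  exact SemidirectProduct.inl_injective.comp (FreeGroup.map_injective Nat.cast_injective)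

theorem rho_alpha : (rho G mx mu).comp (alpha G) =
    (SemidirectProduct.inl : FreeGroup ℤ →* MM).comp (FreeGroup.map (fun n : ℕ => (n : ℤ))) := by
  ext1 n
  simp only [alpha, MonoidHom.coe_comp, Function.comp_apply, FreeGroup.lift_apply_of, map_mul,
    map_pow, map_inv, rho_xx, rho_uu, FreeGroup.map.of]
  exact conj_mu n

theorem rho_beta (e : ℕ → G) : (rho G mu mx).comp (beta e) =
    (SemidirectProduct.inl : FreeGroup ℤ →* MM).comp (FreeGroup.map (fun n : ℕ => (n : ℤ))) := by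
  ext1 n
  simp only [beta, MonoidHom.coe_comp, Function.comp_apply, FreeGroup.lift_apply_of, map_mul,
    map_pow, map_inv, rho_xx, rho_uu, rho_i2, one_mul, FreeGroup.map.of]
  exact conj_mu n

theorem alpha_injective : Function.Injective (alpha G) := by
  apply Function.Injective.of_comp (f := rho G mx mu)
  rw [← MonoidHom.coe_comp, rho_alpha]
  exact model_injective

theorem beta_injective (e : ℕ → G) : Function.Injective (beta e) := by
  apply Function.Injective.of_comp (f := rho G mu mx)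
  rw [← MonoidHom.coe_comp, rho_beta]
  exact model_injective

/-- the isomorphism of the associated subgroups -/
noncomputable def phi (e : ℕ → G) : (alpha G).range ≃* (beta e).range :=
  (MonoidHom.ofInjective alpha_injective).symm.trans (MonoidHom.ofInjective (beta_injective e))

theorem phi_apply (e : ℕ → G) (w : FreeGroup ℕ) :
    phi e ⟨alpha G w, ⟨w, rfl⟩⟩ = ⟨beta e w, ⟨w, rfl⟩⟩ := by
  have h1 : (⟨alpha G w, ⟨w, rfl⟩⟩ : (alpha G).range) =
      MonoidHom.ofInjective alpha_injective w := rfl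
  have h2 : (⟨beta e w, ⟨w, rfl⟩⟩ : (beta e).range) =
      MonoidHom.ofInjective (beta_injective e) w := rfl
  rw [h1, h2, phi, MulEquiv.trans_apply, MulEquiv.symm_apply_apply]

/-- the final group -/
abbrev L3 (e : ℕ → G) := HNNExtension (L2 G) (alpha G).range (beta e).range (phi e)

/-- embedding -/
noncomputable def i3 (e : ℕ → G) : G →* L3 e := (of : L2 G →* L3 e).comp (i2 G)

theorem i2_injective : Function.Injective (i2 G) := by
  unfold i2
  rw [MonoidHom.coe_comp]
  exact (of_injective _).comp (of_injective _)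

theorem i3_injective (e : ℕ → G) : Function.Injective (i3 e) := by
  unfold i3
  rw [MonoidHom.coe_comp]
  exact (of_injective _).comp i2_injective

theorem i3_eq (e : ℕ → G) (k : ℕ) :
    i3 e (e k) = wd (of (xx G) : L3 e) (of (uu G)) t k := by
  have ha : alpha G (FreeGroup.of k) = xx G ^ k * uu G * (xx G ^ k)⁻¹ := by
    simp [alpha]
  have hb : beta e (FreeGroup.of k) = i2 G (e k) * (uu G ^ k * xx G * (uu G ^ k)⁻¹) := by
    simp [beta]
  have h1 : (t : L3 e) * of (alpha G (FreeGroup.of k)) = of (beta e (FreeGroup.of k)) * t := by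
    have h0 := t_mul_of (φ := phi e) ⟨alpha G (FreeGroup.of k), ⟨FreeGroup.of k, rfl⟩⟩
    rw [phi_apply] at h0
    exact h0
  rw [ha, hb] at h1
  have h2 : (of (i2 G (e k)) : L3 e) * (of (uu G) ^ k * of (xx G) * (of (uu G) ^ k)⁻¹) =
      t * (of (xx G) ^ k * of (uu G) * (of (xx G) ^ k)⁻¹) * t⁻¹ := by
    rw [eq_mul_inv_iff_mul_eq]
    rw [map_mul of (i2 G (e k))] at h1
    simp only [map_mul, map_pow, map_inv] at h1 ⊢
    exact h1.symm
  show of (i2 G (e k)) = _
  rw [wd, ← h2]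
  group

/-- the copy of `G` in `L2` -/
abbrev HH2 : Subgroup (L2 G) := ((⊤ : Subgroup G).map (of : G →* L1 G)).map of

/-- the copy of `G` in `L3` -/
noncomputable abbrev HH3 (e : ℕ → G) : Subgroup (L3 e) := (HH2 (G := G)).map of

theorem mem_HH2 {z : L2 G} : z ∈ HH2 (G := G) ↔ ∃ g, i2 G g = z := by
  constructor
  · rintro ⟨_, ⟨g, -, rfl⟩, rfl⟩
    exact ⟨g, rfl⟩
  · rintro ⟨g, rfl⟩
    exact ⟨_, ⟨g, trivial, rfl⟩, rfl⟩

theorem mem_HH3 {e : ℕ → G} {z : L3 e} : z ∈ HH3 e ↔ ∃ g, i3 e g = z := by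
  constructor
  · rintro ⟨y, hy, rfl⟩
    obtain ⟨g, rfl⟩ := mem_HH2.mp hy
    exact ⟨g, rfl⟩
  · rintro ⟨g, rfl⟩
    exact ⟨_, mem_HH2.mpr ⟨g, rfl⟩, rfl⟩

theorem one_step (f : G → ℝ) (hf : ∀ x, 0 ≤ f x ∧ f x ≤ 1)
    (hso : ∀ g, ∀ ε > (0 : ℝ), {x | ε ≤ |f (x * g) - f x|}.Finite) (e : ℕ → G) :
    ∃ (G' : Type u) (_ : Group G') (i : G →* G') (f' : G' → ℝ), Function.Injective i ∧
      (∀ x, f' (i x) = f x) ∧ (∀ x, 0 ≤ f' x ∧ f' x ≤ 1) ∧
      (∀ x, x ∉ Set.range i → ∀ g, f' (x * i g) = f' x) ∧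
      (∀ g, ∀ ε > (0 : ℝ), {x | ε ≤ |f' (x * g) - f' x|}.Finite) ∧
      (∃ x u t : G', ∀ k, i (e k) = wd x u t k) ∧
      Cardinal.mk G' ≤ max (Cardinal.mk G) Cardinal.aleph0 := by
  classical
  -- level 0
  have hP0 : Proper (⊤ : Subgroup G) ({1} : Set G) := by
    intro n
    refine (Set.finite_singleton (1 : G)).subset ?_
    rintro g ⟨-, hav⟩
    cases hav with
    | one hs => exact hs
    | step _ h _ _ => exact absurd trivial h
  have h1S0 : (1 : G) ∈ ({1} : Set G) := rfl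
  have hinv0 : ∀ s ∈ ({1} : Set G), s⁻¹ ∈ ({1} : Set G) := by
    rintro s rfl
    simp
  have hgen0 : ∀ l : G, ∃ n, Rel (⊤ : Subgroup G) ({1} : Set G) n l :=
    fun l => rel_of_mem trivial
  -- level 1
  have hP1 := proper_hnn (MulEquiv.refl (⊥ : Subgroup G)) ⊤ {1} h1S0 hP0 hgen0
    (fun _ => finite_bot) (fun _ => finite_bot)
  have h1S1 := one_mem_stepSet (MulEquiv.refl (⊥ : Subgroup G)) h1S0
  have hinv1 := inv_mem_stepSet (MulEquiv.refl (⊥ : Subgroup G)) hinv0
  have hgen1 := gen_hnn (MulEquiv.refl (⊥ : Subgroup G)) h1S0 hinv0 hgen0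
  have hfin1 := finite_stepSet (MulEquiv.refl (⊥ : Subgroup G)) (Set.finite_singleton (1 : G))
  -- level 2
  have hP2 := proper_hnn (MulEquiv.refl (⊥ : Subgroup (L1 G))) _ _ h1S1 hP1 hgen1
    (fun _ => finite_bot) (fun _ => finite_bot)
  have h1S2 := one_mem_stepSet (MulEquiv.refl (⊥ : Subgroup (L1 G))) h1S1
  have hinv2 := inv_mem_stepSet (MulEquiv.refl (⊥ : Subgroup (L1 G))) hinv1
  have hgen2 := gen_hnn (MulEquiv.refl (⊥ : Subgroup (L1 G))) h1S1 hinv1 hgen1
  have hfin2 := finite_stepSet (MulEquiv.refl (⊥ : Subgroup (L1 G))) hfin1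
  -- level 3
  have hA : ∀ n, {a | a ∈ (alpha G).range ∧ Rel HH2
      (stepSet (MulEquiv.refl (⊥ : Subgroup (L1 G)))
        (stepSet (MulEquiv.refl (⊥ : Subgroup G)) {1})) n a}.Finite := by
    apply finite_rel hfin2 (rho G mx mu)
    · intro h hh
      obtain ⟨g, rfl⟩ := mem_HH2.mp hh
      simp
    · rintro _ ⟨a, rfl⟩ _ ⟨b, rfl⟩ hab
      congr 1
      apply model_injective
      rw [← rho_alpha (G := G)]
      exact hab
  have hB : ∀ n, {a | a ∈ (beta e).range ∧ Rel HH2
      (stepSet (MulEquiv.refl (⊥ : Subgroup (L1 G)))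
        (stepSet (MulEquiv.refl (⊥ : Subgroup G)) {1})) n a}.Finite := by
    apply finite_rel hfin2 (rho G mu mx)
    · intro h hh
      obtain ⟨g, rfl⟩ := mem_HH2.mp hh
      simp
    · rintro _ ⟨a, rfl⟩ _ ⟨b, rfl⟩ hab
      congr 1
      apply model_injective
      rw [← rho_beta e]
      exact hab
  have hP3 := proper_hnn (phi e) HH2 _ h1S2 hP2 hgen2 hA hB
  have hinv3 := inv_mem_stepSet (phi e) hinv2
  have hgen3 := gen_hnn (phi e) h1S2 hinv2 hgen2
  have hfin3 := finite_stepSet (phi e) hfin2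
  -- the function on `L3`
  have hext : ∀ g, Function.extend (i3 e) f 0 (i3 e g) = f g :=
    fun g => (i3_injective e).extend_apply _ _ _
  obtain ⟨f', hf'1, hf'2, hf'3, hf'4⟩ := exists_extension (HH3 e) _ hfin3 hinv3
    (closure_eq_top hgen3) hP3 (Function.extend (i3 e) f 0)
    (by
      intro x hx
      obtain ⟨g, rfl⟩ := mem_HH3.mp hx
      rw [hext]
      exact hf g)
    (by
      intro h hh ε hε
      obtain ⟨g, rfl⟩ := mem_HH3.mp hh
      refine ((hso g ε hε).image (i3 e)).subset ?_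
      rintro x ⟨hx, hx'⟩
      obtain ⟨y, rfl⟩ := mem_HH3.mp hx
      refine ⟨y, ?_, rfl⟩
      rw [← map_mul, hext, hext] at hx'
      exact hx')
  refine ⟨L3 e, inferInstance, i3 e, f', i3_injective e, ?_, hf'2, ?_, hf'4, ?_, ?_⟩
  · intro x
    rw [hf'1 _ (mem_HH3.mpr ⟨x, rfl⟩), hext]
  · intro x hx g
    apply hf'3
    · intro hmem
      exact hx (mem_HH3.mp hmem)
    · exact mem_HH3.mpr ⟨g, rfl⟩
  · exact ⟨_, _, _, i3_eq e⟩
  · refine (mk_hnn_le _ _).trans (max_le ?_ (le_max_right _ _))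
    refine (mk_hnn_le _ _).trans (max_le ?_ (le_max_right _ _))
    exact mk_hnn_le _ _

end Step

end Pool.Agent.Hhelper4.Bergman
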