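import Pool.Agent.Hhelper4.Bergman.OneStep

/-!
Group structures with a function on subsets of a fixed type, their unions, and the step.
-/

namespace Pool.Agent.Hhelper4.Bergman

open Set

/-- a group structure, together with a slowly oscillating function, on a subset of `Ω` -/
structure PS (Ω : Type) where
  C : Set Ω
  mul : Ω → Ω → Ω
  f : Ω → ℝ
  mul_mem : ∀ a ∈ C, ∀ b ∈ C, mul a b ∈ C
  mul_assoc : ∀ a ∈ C, ∀ b ∈ C, ∀ c ∈ C, mul (mul a b) c = mul a (mul b c)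
  ex : ∃ e ∈ C, (∀ a ∈ C, mul e a = a) ∧ ∀ a ∈ C, ∃ b ∈ C, mul b a = e
  f01 : ∀ a ∈ C, 0 ≤ f a ∧ f a ≤ 1
  so : ∀ g ∈ C, ∀ ε > (0 : ℝ), {x | x ∈ C ∧ ε ≤ |f (mul x g) - f x|}.Finite

variable {Ω : Type}

/-- the group structure on the carrier -/
noncomputable def PS.grp (P : PS Ω) : Group P.C :=
  @Group.ofLeftAxioms P.C ⟨fun a b => ⟨P.mul a b, P.mul_mem _ a.2 _ b.2⟩⟩
    ⟨fun a => ⟨(P.ex.choose_spec.2.2 a a.2).choose, (P.ex.choose_spec.2.2 a a.2).choose_spec.1⟩⟩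
    ⟨⟨P.ex.choose, P.ex.choose_spec.1⟩⟩
    (fun a b c => Subtype.ext (P.mul_assoc _ a.2 _ b.2 _ c.2))
    (fun a => Subtype.ext (P.ex.choose_spec.2.1 a a.2))
    (fun a => Subtype.ext (P.ex.choose_spec.2.2 a a.2).choose_spec.2)

noncomputable instance (P : PS Ω) : Group P.C := P.grp

theorem PS.coe_mul (P : PS Ω) (a b : P.C) : ((a * b : P.C) : Ω) = P.mul a b := rfl

theorem PS.idem (P : PS Ω) {e : Ω} (he1 : ∀ a ∈ P.C, P.mul e a = a)
    (he2 : ∀ a ∈ P.C, ∃ b ∈ P.C, P.mul b a = e) {x : Ω} (hx : x ∈ P.C) (hxx : P.mul x x = x) :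
    x = e := by
  obtain ⟨b, hb, hbx⟩ := he2 x hx
  have h1 := P.mul_assoc b hb x hx x hx
  rw [hbx, hxx, hbx, he1 x hx] at h1
  exact h1

/-- extension of partial structures -/
def Le (P Q : PS Ω) : Prop :=
  P.C ⊆ Q.C ∧ (∀ a ∈ P.C, ∀ b ∈ P.C, Q.mul a b = P.mul a b) ∧ (∀ a ∈ P.C, Q.f a = P.f a) ∧
    ∀ x ∈ Q.C, x ∉ P.C → ∀ a ∈ P.C, Q.f (Q.mul x a) = Q.f x

theorem Le.refl (P : PS Ω) : Le P P :=
  ⟨subset_rfl, fun _ _ _ _ => rfl, fun _ _ => rfl, fun _ hx hx' => absurd hx hx'⟩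

theorem Le.trans {P Q R : PS Ω} (h : Le P Q) (h' : Le Q R) : Le P R := by
  refine ⟨h.1.trans h'.1, ?_, ?_, ?_⟩
  · intro a ha b hb
    rw [h'.2.1 a (h.1 ha) b (h.1 hb), h.2.1 a ha b hb]
  · intro a ha
    rw [h'.2.2.1 a (h.1 ha), h.2.2.1 a ha]
  · intro x hx hxP a ha
    by_cases hxQ : x ∈ Q.C
    · rw [h'.2.1 x hxQ a (h.1 ha), h'.2.2.1 _ (Q.mul_mem x hxQ a (h.1 ha)),
        h.2.2.2 x hxQ hxP a ha, h'.2.2.1 x hxQ]
    · exact h'.2.2.2 x hx hxQ a (h.1 ha)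

/-- inclusion as a homomorphism -/
noncomputable def Le.hom {P Q : PS Ω} (h : Le P Q) : P.C →* Q.C :=
  MonoidHom.mk' (fun a => ⟨a, h.1 a.2⟩) (fun a b => Subtype.ext (h.2.1 a a.2 b b.2).symm)

theorem Le.coe_hom {P Q : PS Ω} (h : Le P Q) (a : P.C) : ((h.hom a : Q.C) : Ω) = a := rfl

/-- a sequence is solved in a structure -/
def Solved (P : PS Ω) (e : ℕ → Ω) : Prop :=
  ∃ x u t : P.C, ∀ k, e k = ((wd x u t k : P.C) : Ω)

theorem Solved.mono {P Q : PS Ω} (h : Le P Q) {e : ℕ → Ω} (hP : Solved P e) : Solved Q e := by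
  obtain ⟨x, u, t, hk⟩ := hP
  refine ⟨h.hom x, h.hom u, h.hom t, fun k => ?_⟩
  rw [← map_wd, h.coe_hom]
  exact hk k

section Union

variable {ι : Type} [Nonempty ι] (F : ι → PS Ω)

/-- directed families -/
def Dir : Prop := ∀ i j, ∃ k, Le (F i) (F k) ∧ Le (F j) (F k)

open Classical in
/-- multiplication of the union -/
noncomputable def umul (a b : Ω) : Ω :=
  if h : ∃ i, a ∈ (F i).C ∧ b ∈ (F i).C then (F h.choose).mul a b else a

open Classical in
/-- function of the union -/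
noncomputable def uf (a : Ω) : ℝ :=
  if h : ∃ i, a ∈ (F i).C then (F h.choose).f a else 0

variable {F}

theorem umul_eq (hF : Dir F) {i : ι} {a b : Ω} (ha : a ∈ (F i).C) (hb : b ∈ (F i).C) :
    umul F a b = (F i).mul a b := by
  have h : ∃ i, a ∈ (F i).C ∧ b ∈ (F i).C := ⟨i, ha, hb⟩
  rw [umul, dif_pos h]
  obtain ⟨k, h1, h2⟩ := hF i h.choose
  rw [← h1.2.1 a ha b hb, h2.2.1 a h.choose_spec.1 b h.choose_spec.2]

theorem uf_eq (hF : Dir F) {i : ι} {a : Ω} (ha : a ∈ (F i).C) : uf F a = (F i).f a := by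
  have h : ∃ i, a ∈ (F i).C := ⟨i, ha⟩
  rw [uf, dif_pos h]
  obtain ⟨k, h1, h2⟩ := hF i h.choose
  rw [← h1.2.2.1 a ha, h2.2.2.1 a h.choose_spec]

theorem exists_common (hF : Dir F) {a b : Ω} (ha : a ∈ ⋃ i, (F i).C) (hb : b ∈ ⋃ i, (F i).C) :
    ∃ k, a ∈ (F k).C ∧ b ∈ (F k).C := by
  rw [mem_iUnion] at ha hb
  obtain ⟨i, ha⟩ := ha
  obtain ⟨j, hb⟩ := hb
  obtain ⟨k, h1, h2⟩ := hF i j
  exact ⟨k, h1.1 ha, h2.1 hb⟩

/-- union of a directed family -/
noncomputable def union (hF : Dir F) : PS Ω where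
  C := ⋃ i, (F i).C
  mul := umul F
  f := uf F
  mul_mem := by
    intro a ha b hb
    obtain ⟨k, h1, h2⟩ := exists_common hF ha hb
    rw [umul_eq hF h1 h2]
    exact mem_iUnion.mpr ⟨k, (F k).mul_mem a h1 b h2⟩
  mul_assoc := by
    intro a ha b hb c hc
    obtain ⟨i, h1, h2⟩ := exists_common hF ha hb
    obtain ⟨j, hj⟩ := mem_iUnion.mp hc
    obtain ⟨k, h3, h4⟩ := hF i j
    have ha' := h3.1 h1
    have hb' := h3.1 h2
    have hc' := h4.1 hj
    rw [umul_eq hF ha' hb', umul_eq hF hb' hc', umul_eq hF ((F k).mul_mem _ ha' _ hb') hc',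
      umul_eq hF ha' ((F k).mul_mem _ hb' _ hc')]
    exact (F k).mul_assoc _ ha' _ hb' _ hc'
  ex := by
    obtain ⟨i₀⟩ := ‹Nonempty ι›
    obtain ⟨e, he, he1, he2⟩ := (F i₀).ex
    have key : ∀ k, Le (F i₀) (F k) → (∀ a ∈ (F k).C, (F k).mul e a = a) ∧
        ∀ a ∈ (F k).C, ∃ b ∈ (F k).C, (F k).mul b a = e := by
      intro k hk
      obtain ⟨e', he', he1', he2'⟩ := (F k).ex
      have h1 : (F k).mul e e = e := by
        rw [hk.2.1 e he e he, he1 e he]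
      have h2 : e = e' := (F k).idem he1' he2' (hk.1 he) h1
      rw [h2]
      exact ⟨he1', he2'⟩
    refine ⟨e, mem_iUnion.mpr ⟨i₀, he⟩, ?_, ?_⟩
    · intro a ha
      obtain ⟨j, hj⟩ := mem_iUnion.mp ha
      obtain ⟨k, h1, h2⟩ := hF i₀ j
      rw [umul_eq hF (h1.1 he) (h2.1 hj)]
      exact (key k h1).1 a (h2.1 hj)
    · intro a ha
      obtain ⟨j, hj⟩ := mem_iUnion.mp ha
      obtain ⟨k, h1, h2⟩ := hF i₀ j
      obtain ⟨b, hb, hba⟩ := (key k h1).2 a (h2.1 hj)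
      refine ⟨b, mem_iUnion.mpr ⟨k, hb⟩, ?_⟩
      rw [umul_eq hF hb (h2.1 hj)]
      exact hba
  f01 := by
    intro a ha
    obtain ⟨j, hj⟩ := mem_iUnion.mp ha
    rw [uf_eq hF hj]
    exact (F j).f01 a hj
  so := by
    intro g hg ε hε
    obtain ⟨i, hi⟩ := mem_iUnion.mp hg
    refine ((F i).so g hi ε hε).subset ?_
    rintro x ⟨hx, hx'⟩
    obtain ⟨j, hj⟩ := mem_iUnion.mp hx
    obtain ⟨k, h1, h2⟩ := hF i j
    have hxk := h2.1 hj
    have hgk := h1.1 hi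
    rw [umul_eq hF hxk hgk, uf_eq hF ((F k).mul_mem _ hxk _ hgk), uf_eq hF hxk] at hx'
    by_cases hxi : x ∈ (F i).C
    · refine ⟨hxi, ?_⟩
      rw [h1.2.1 x hxi g hi, h1.2.2.1 _ ((F i).mul_mem x hxi g hi), h1.2.2.1 x hxi] at hx'
      exact hx'
    · rw [h1.2.2.2 x hxk hxi g hi] at hx'
      simp at hx'
      linarith

theorem le_union (hF : Dir F) (i : ι) : Le (F i) (union hF) := by
  refine ⟨fun a ha => mem_iUnion.mpr ⟨i, ha⟩, fun a ha b hb => umul_eq hF ha hb,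
    fun a ha => uf_eq hF ha, ?_⟩
  intro x hx hxi a ha
  obtain ⟨j, hj⟩ := mem_iUnion.mp hx
  obtain ⟨k, h1, h2⟩ := hF i j
  have hxk := h2.1 hj
  have hak := h1.1 ha
  show uf F (umul F x a) = uf F x
  rw [umul_eq hF hxk hak, uf_eq hF ((F k).mul_mem _ hxk _ hak), uf_eq hF hxk]
  exact h1.2.2.2 x hxk hxi a ha

end Union

section OfInj

variable {G : Type} [Group G]

/-- structure transported along an injection -/
noncomputable def ofInj (j : G → Ω) (hj : Function.Injective j) (f : G → ℝ)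
    (hf : ∀ x, 0 ≤ f x ∧ f x ≤ 1)
    (hso : ∀ g, ∀ ε > (0 : ℝ), {x | ε ≤ |f (x * g) - f x|}.Finite) : PS Ω where
  C := range j
  mul := fun a b => j (Function.invFun j a * Function.invFun j b)
  f := fun a => f (Function.invFun j a)
  mul_mem := by
    intro a _ b _
    exact ⟨_, rfl⟩
  mul_assoc := by
    rintro _ ⟨a, rfl⟩ _ ⟨b, rfl⟩ _ ⟨c, rfl⟩
    simp only [Function.leftInverse_invFun hj _, mul_assoc]
  ex := by
    refine ⟨j 1, ⟨1, rfl⟩, ?_, ?_⟩
    · rintro _ ⟨a, rfl⟩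
      simp only [Function.leftInverse_invFun hj _, one_mul]
    · rintro _ ⟨a, rfl⟩
      refine ⟨j a⁻¹, ⟨_, rfl⟩, ?_⟩
      simp only [Function.leftInverse_invFun hj _, inv_mul_cancel]
  f01 := fun a _ => hf _
  so := by
    rintro _ ⟨g, rfl⟩ ε hε
    refine ((hso g ε hε).image j).subset ?_
    rintro _ ⟨⟨x, rfl⟩, hx⟩
    refine ⟨x, ?_, rfl⟩
    simp only [Function.leftInverse_invFun hj _] at hx
    exact hx

theorem step_exists {I U : Type} (i : I) (P : PS (Option I × U))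
    (hU : Cardinal.mk P.C ≤ Cardinal.mk U) (hU' : Cardinal.aleph0 ≤ Cardinal.mk U)
    (htag : ∀ a ∈ P.C, a.1 ≠ some i) (e : ℕ → Option I × U) (he : ∀ k, e k ∈ P.C) :
    ∃ Q : PS (Option I × U), Le P Q ∧ Solved Q e ∧ ∀ a ∈ Q.C, a ∈ P.C ∨ a.1 = some i := by
  classical
  obtain ⟨G', hG', ι, f', hι, hf'1, hf'2, hf'3, hf'4, ⟨x, u, t, hk⟩, hcard⟩ :=
    one_step (G := P.C) (fun a => P.f a) (fun a => P.f01 a a.2)
      (by
        intro g ε hε
        apply Set.Finite.of_finite_image (f := Subtype.val)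
        · refine (P.so g g.2 ε hε).subset ?_
          rintro _ ⟨a, ha, rfl⟩
          exact ⟨a.2, ha⟩
        · exact Subtype.val_injective.injOn) (fun k => ⟨e k, he k⟩)
  have hcard' : Cardinal.mk G' ≤ Cardinal.mk U := hcard.trans (max_le hU hU')
  obtain ⟨κ⟩ : Nonempty (G' ↪ U) := Cardinal.le_def _ _ |>.mp hcard'
  let j : G' → Option I × U := fun g =>
    if h : g ∈ range ι then ((h.choose : P.C) : Option I × U) else (some i, κ g)
  have hjι : ∀ a : P.C, j (ι a) = a := by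
    intro a
    have h : ι a ∈ range ι := ⟨a, rfl⟩
    simp only [j, dif_pos h]
    congr 1
    exact hι h.choose_spec
  have hjn : ∀ g, g ∉ range ι → j g = (some i, κ g) := by
    intro g h
    simp only [j, dif_neg h]
  have hj : Function.Injective j := by
    intro g g' hgg'
    by_cases h : g ∈ range ι
    · obtain ⟨a, rfl⟩ := h
      by_cases h' : g' ∈ range ι
      · obtain ⟨a', rfl⟩ := h'
        rw [hjι, hjι] at hgg'
        rw [Subtype.ext hgg']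
      · exfalso
        rw [hjι, hjn _ h'] at hgg'
        exact htag _ a.2 (by rw [hgg'])
    · by_cases h' : g' ∈ range ι
      · exfalso
        obtain ⟨a', rfl⟩ := h'
        rw [hjι, hjn _ h] at hgg'
        exact htag _ a'.2 (by rw [← hgg'])
      · rw [hjn _ h, hjn _ h'] at hgg'
        exact κ.injective (Prod.ext_iff.mp hgg').2
  refine ⟨ofInj j hj f' hf'2 hf'4, ⟨?_, ?_, ?_, ?_⟩, ?_, ?_⟩
  · intro a ha
    exact ⟨ι ⟨a, ha⟩, hjι ⟨a, ha⟩⟩
  · intro a ha b hb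
    have h1 := hjι ⟨a, ha⟩
    have h2 := hjι ⟨b, hb⟩
    show j (Function.invFun j a * Function.invFun j b) = P.mul a b
    have e1 : Function.invFun j a = ι ⟨a, ha⟩ := by
      rw [← Function.leftInverse_invFun hj (ι ⟨a, ha⟩), h1]
    have e2 : Function.invFun j b = ι ⟨b, hb⟩ := by
      rw [← Function.leftInverse_invFun hj (ι ⟨b, hb⟩), h2]
    rw [e1, e2, ← map_mul, hjι]
    rfl
  · intro a ha
    have h1 := hjι ⟨a, ha⟩
    show f' (Function.invFun j a) = P.f a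
    have e1 : Function.invFun j a = ι ⟨a, ha⟩ := by
      rw [← Function.leftInverse_invFun hj (ι ⟨a, ha⟩), h1]
    rw [e1, hf'1]
  · rintro _ ⟨g, rfl⟩ hg a ha
    have h1 := hjι ⟨a, ha⟩
    show f' (Function.invFun j (j (Function.invFun j (j g) * Function.invFun j a))) =
      f' (Function.invFun j (j g))
    have e1 : Function.invFun j a = ι ⟨a, ha⟩ := by
      rw [← Function.leftInverse_invFun hj (ι ⟨a, ha⟩), h1]
    rw [e1, Function.leftInverse_invFun hj, Function.leftInverse_invFun hj]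
    apply hf'3
    rintro ⟨b, rfl⟩
    apply hg
    rw [hjι]
    exact b.2
  · let Q := ofInj j hj f' hf'2 hf'4
    let F : G' →* Q.C := MonoidHom.mk' (fun g => (⟨j g, ⟨g, rfl⟩⟩ : Q.C)) (by
      intro a b
      apply Subtype.ext
      show j (a * b) = j (Function.invFun j (j a) * Function.invFun j (j b))
      rw [Function.leftInverse_invFun hj, Function.leftInverse_invFun hj])
    refine ⟨F x, F u, F t, fun k => ?_⟩
    rw [← map_wd, ← hk k]
    show e k = j (ι ⟨e k, he k⟩)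
    rw [hjι]
  · rintro _ ⟨g, rfl⟩
    by_cases h : g ∈ range ι
    · obtain ⟨a, rfl⟩ := h
      left
      rw [hjι]
      exact a.2
    · right
      rw [hjn _ h]

end OfInj

end Pool.Agent.Hhelper4.Bergman
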