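import Pool.Agent.Hhelper4.Bergman.Partial

/-!
The transfinite construction.
-/

namespace Pool.Agent.Hhelper4.Bergman

open Set Cardinal

section Rec

variable {I : Type} [LinearOrder I] [WellFoundedLT I] {U : Type}

open Classical in
/-- union if possible -/
noncomputable def combine {Ω ι : Type} [Nonempty ι] (F : ι → PS Ω) : PS Ω :=
  if h : Dir F then union h else F (Classical.arbitrary ι)

open Classical in
/-- one step -/
noncomputable def stp (b : I → ℕ → Option I × U) (i : I) (P : PS (Option I × U)) :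
    PS (Option I × U) :=
  if h : (∃ Q, Le P Q ∧ Solved Q (b i) ∧ ∀ a ∈ Q.C, a ∈ P.C ∨ a.1 = some i) then h.choose else P

omit [LinearOrder I] [WellFoundedLT I] in
theorem le_stp (b : I → ℕ → Option I × U) (i : I) (P : PS (Option I × U)) :
    Le P (stp b i P) := by
  unfold stp
  split_ifs with h
  · exact h.choose_spec.1
  · exact Le.refl P

omit [LinearOrder I] [WellFoundedLT I] in
theorem tag_stp (b : I → ℕ → Option I × U) (i : I) (P : PS (Option I × U)) :
    ∀ a ∈ (stp b i P).C, a ∈ P.C ∨ a.1 = some i := by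
  unfold stp
  split_ifs with h
  · exact h.choose_spec.2.2
  · intro a ha
    exact Or.inl ha

omit [LinearOrder I] [WellFoundedLT I] in
theorem solved_stp (b : I → ℕ → Option I × U) (i : I) (P : PS (Option I × U))
    (h : ∃ Q, Le P Q ∧ Solved Q (b i) ∧ ∀ a ∈ Q.C, a ∈ P.C ∨ a.1 = some i) :
    Solved (stp b i P) (b i) := by
  unfold stp
  rw [dif_pos h]
  exact h.choose_spec.2.1

variable (base : PS (Option I × U)) (b : I → ℕ → Option I × U)

/-- the transfinite sequence -/
noncomputable def PP : I → PS (Option I × U) :=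
  WellFounded.fix (wellFounded_lt (α := I)) fun i rec =>
    stp b i (combine fun o : Option {j // j < i} => o.elim base fun j => rec j.1 j.2)

/-- the structure before stage `i` -/
noncomputable def UU (i : I) : PS (Option I × U) :=
  combine fun o : Option {j // j < i} => o.elim base fun j => PP base b j.1

theorem PP_eq (i : I) : PP base b i = stp b i (UU base b i) := by
  unfold PP
  rw [WellFounded.fix_eq]
  rfl

variable {base b}

theorem main_rec (hbase : ∀ a ∈ base.C, a.1 = none) (i : I) :
    (∀ j < i, Le (PP base b j) (UU base b i)) ∧ Le base (UU base b i) ∧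
      (∀ a ∈ (UU base b i).C, a.1 = none ∨ ∃ j < i, a.1 = some j) := by
  induction i using WellFounded.induction (wellFounded_lt (α := I)) with
  | _ i ih =>
    have hle : ∀ j < i, Le (UU base b j) (PP base b j) := by
      intro j _
      rw [PP_eq]
      exact le_stp _ _ _
    have hdir : Dir fun o : Option {j // j < i} => o.elim base fun j => PP base b j.1 := by
      rintro (_ | ⟨j, hj⟩) (_ | ⟨k, hk⟩)
      · exact ⟨none, Le.refl _, Le.refl _⟩
      · exact ⟨some ⟨k, hk⟩, ((ih k hk).2.1).trans (hle k hk), Le.refl _⟩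
      · exact ⟨some ⟨j, hj⟩, Le.refl _, ((ih j hj).2.1).trans (hle j hj)⟩
      · rcases lt_trichotomy j k with h | h | h
        · exact ⟨some ⟨k, hk⟩, ((ih k hk).1 j h).trans (hle k hk), Le.refl _⟩
        · subst h
          exact ⟨some ⟨j, hj⟩, Le.refl _, Le.refl _⟩
        · exact ⟨some ⟨j, hj⟩, Le.refl _, ((ih j hj).1 k h).trans (hle j hj)⟩
    have hUU : UU base b i = union hdir := by
      unfold UU combine
      rw [dif_pos hdir]
    refine ⟨?_, ?_, ?_⟩
    · intro j hj
      rw [hUU]
      exact le_union hdir (some ⟨j, hj⟩)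
    · rw [hUU]
      exact le_union hdir none
    · intro a ha
      rw [hUU] at ha
      obtain ⟨o, ho⟩ := mem_iUnion.mp ha
      rcases o with _ | ⟨j, hj⟩
      · exact Or.inl (hbase a ho)
      · have ho' : a ∈ (PP base b j).C := ho
        rw [PP_eq] at ho'
        rcases tag_stp _ _ _ a ho' with h | h
        · rcases (ih j hj).2.2 a h with h1 | ⟨k, hk, h1⟩
          · exact Or.inl h1
          · exact Or.inr ⟨k, hk.trans hj, h1⟩
        · exact Or.inr ⟨j, hj, h⟩

theorem PP_mono (hbase : ∀ a ∈ base.C, a.1 = none) {i j : I} (h : i < j) :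
    Le (PP base b i) (PP base b j) := by
  refine ((main_rec hbase j).1 i h).trans ?_
  rw [PP_eq base b j]
  exact le_stp _ _ _

theorem base_le (hbase : ∀ a ∈ base.C, a.1 = none) (i : I) : Le base (PP base b i) := by
  refine (main_rec (b := b) hbase i).2.1.trans ?_
  rw [PP_eq base b i]
  exact le_stp _ _ _

theorem dir_all (hbase : ∀ a ∈ base.C, a.1 = none) :
    Dir fun o : Option I => o.elim base (PP base b) := by
  rintro (_ | j) (_ | k)
  · exact ⟨none, Le.refl _, Le.refl _⟩
  · exact ⟨some k, base_le hbase k, Le.refl _⟩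
  · exact ⟨some j, Le.refl _, base_le hbase j⟩
  · rcases lt_trichotomy j k with h | h | h
    · exact ⟨some k, PP_mono hbase h, Le.refl _⟩
    · subst h
      exact ⟨some j, Le.refl _, Le.refl _⟩
    · exact ⟨some j, Le.refl _, PP_mono hbase h⟩

theorem exists_complete [Nonempty I] (base : PS (Option I × U))
    (hbase : ∀ a ∈ base.C, a.1 = none)
    (hU : #(Option I × U) ≤ #U) (hU' : ℵ₀ ≤ #U)
    (hcof : ∀ s : ℕ → I, ∃ j, ∀ n, s n ≤ j)
    (hb : ∀ (e : ℕ → Option I × U) (j : I), ∃ i, j < i ∧ b i = e) :
    ∃ P : PS (Option I × U), Le base P ∧ ∀ e : ℕ → Option I × U, (∀ k, e k ∈ P.C) →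
      Solved P e := by
  refine ⟨union (dir_all (b := b) hbase), le_union (dir_all (b := b) hbase) none, ?_⟩
  intro e he
  have h1 : ∀ k, ∃ i, e k ∈ (PP base b i).C := by
    intro k
    obtain ⟨o, ho⟩ := mem_iUnion.mp (he k)
    rcases o with _ | i
    · exact ⟨Classical.arbitrary I, (base_le hbase _).1 ho⟩
    · exact ⟨i, ho⟩
  choose s hs using h1
  obtain ⟨j, hj⟩ := hcof s
  have h2 : ∀ k, e k ∈ (PP base b j).C := by
    intro k
    rcases (hj k).lt_or_eq with h | h
    · exact (PP_mono hbase h).1 (hs k)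
    · rw [← h]; exact hs k
  obtain ⟨i, hji, hbi⟩ := hb e j
  obtain ⟨h3, -, h4⟩ := main_rec (b := b) hbase i
  have h5 : ∀ k, e k ∈ (UU base b i).C := fun k => (h3 j hji).1 (h2 k)
  have h6 : Solved (PP base b i) (b i) := by
    rw [PP_eq base b i]
    apply solved_stp
    rw [hbi]
    apply step_exists i (UU base b i) ((mk_set_le _).trans hU) hU' _ e h5
    intro a ha hcon
    rcases h4 a ha with h | ⟨k, hk, h⟩
    · rw [h] at hcon
      exact absurd hcon (by simp)
    · rw [h] at hcon
      simp only [Option.some.injEq] at hcon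
      exact absurd hcon hk.ne
  rw [hbi] at h6
  exact h6.mono (le_union (dir_all (b := b) hbase) (some i))

end Rec

theorem mk_option_prod {I U : Type} (hI : #I = 𝔠) (hU : #U = 𝔠) : #(Option I × U) = 𝔠 := by
  rw [mk_prod, lift_id, lift_id, mk_option, hI, hU]
  have h1 : (𝔠 : Cardinal.{0}) + 1 = 𝔠 := by
    apply Cardinal.add_one_eq
    exact aleph0_le_continuum
  rw [h1, continuum_mul_self]

/-- Every base structure extends to one in which all sequences are solved. -/
theorem exists_index : ∃ I : Type, #I = 𝔠 ∧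
    ∀ (base : PS (Option I × I)), (∀ a ∈ base.C, a.1 = none) →
    ∃ P : PS (Option I × I), Le base P ∧
      ∀ e : ℕ → Option I × I, (∀ k, e k ∈ P.C) → Solved P e := by
  classical
  let I : Type := (𝔠 : Cardinal.{0}).out
  have hI : #I = 𝔠 := mk_out _
  obtain ⟨_, _, hα⟩ := exists_ord_eq_type_lt I
  have hIio : ∀ i : I, #(Iio i) < 𝔠 := by
    intro i
    have := mk_Iio_lt i hα
    rwa [hI] at this
  have hIic : ∀ i : I, #(Iic i) < 𝔠 := by
    intro i
    have h1 : Iic i = insert i (Iio i) := by
      ext x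
      simp [le_iff_eq_or_lt]
    rw [h1]
    refine (mk_insert_le).trans_lt ?_
    exact add_lt_of_lt aleph0_le_continuum (hIio i)
      (lt_of_lt_of_le one_lt_aleph0 aleph0_le_continuum)
  have hne : Nonempty I := by
    rw [← mk_ne_zero_iff, hI]
    exact continuum_ne_zero
  -- cofinality
  have hcof : ∀ s : ℕ → I, ∃ j, ∀ n, s n ≤ j := by
    intro s
    by_contra hcon
    push Not at hcon
    have h1 : (Set.univ : Set I) ⊆ ⋃ n, Iio (s n) := by
      intro j _
      obtain ⟨n, hn⟩ := hcon j
      exact mem_iUnion.mpr ⟨n, hn⟩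
    have h2 : #(Set.univ : Set I) ≤ #(⋃ n, Iio (s n)) := mk_le_mk_of_subset h1
    have h3 : #(⋃ n, Iio (s n)) ≤ sum fun n => #(Iio (s n)) := mk_iUnion_le_sum_mk
    have h4 : (sum fun n => #(Iio (s n))) < prod fun _ : ℕ => (𝔠 : Cardinal.{0}) :=
      sum_lt_prod _ _ fun n => hIio (s n)
    have h5 : (prod fun _ : ℕ => (𝔠 : Cardinal.{0})) = 𝔠 := by
      rw [prod_const]
      simp
    rw [mk_univ, hI] at h2
    rw [h5] at h4
    exact absurd (h2.trans h3) (not_le.mpr h4)
  -- bookkeeping
  have hprod : #(Option I × I) = 𝔠 := mk_option_prod hI hI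
  have hseq : #(ℕ → Option I × I) = 𝔠 := by
    rw [← power_def, hprod, mk_nat, continuum_power_aleph0]
  have hIseq : #I = #(I × (ℕ → Option I × I)) := by
    rw [mk_prod, lift_id, lift_id, hseq, hI, continuum_mul_self]
  obtain ⟨eqv⟩ := Cardinal.eq.mp hIseq
  let b : I → ℕ → Option I × I := fun i => (eqv i).2
  have hb : ∀ (e : ℕ → Option I × I) (j : I), ∃ i, j < i ∧ b i = e := by
    intro e j
    by_contra hcon
    push Not at hcon
    have h1 : Function.Injective (fun k : I => (⟨eqv.symm (k, e), by
        by_contra h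
        have h2 := hcon (eqv.symm (k, e)) (not_le.mp h)
        apply h2
        simp [b]⟩ : Iic j)) := by
      intro k k' hkk'
      have h2 := congrArg Subtype.val hkk'
      simp only [EmbeddingLike.apply_eq_iff_eq, Prod.mk.injEq, and_true] at h2
      exact h2
    have h2 := mk_le_of_injective h1
    rw [hI] at h2
    exact absurd h2 (not_le.mpr (hIic j))
  refine ⟨I, hI, fun base hbase => ?_⟩
  exact exists_complete (b := b) base hbase (by rw [hprod, hI])
    (by rw [hI]; exact aleph0_le_continuum) hcof hb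

end Pool.Agent.Hhelper4.Bergman
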